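import Pool.Agent.FLG.PK.Chi

/-!
# FLG-PK-Det: the matrix of the Euler pairing of `G/P` is unimodular

Triangularity of the basis, the fixed point formula for the pairing, `prod_diag`.
-/

set_option autoImplicit false

open scoped BigOperators Topology
open Filter
open Pool.Agent.DST.TE Pool.Agent.DSTJ.Spec

namespace Pool.Agent.FLG.Par

open RS

variable {r : ℕ} {P : Par r}

private theorem pd_inv {b : Fin r → ℤ} (hb : b ∈ P.D.Pos) (p : P.X) :
    b ∈ P.D.Inv p.1 ↔ -P.D.rt p.1⁻¹ b ∈ P.Pos := by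
  have hΦ : P.D.rt p.1⁻¹ b ∈ P.D.Φ := P.D.rt_mem.2 (mem_of_pos hb)
  unfold RS.Inv
  rw [Finset.mem_filter, mem_Pos]
  constructor
  · rintro ⟨_, h⟩
    refine ⟨(not_pos_iff hΦ).1 h, fun hl => h ?_⟩
    have h1 : P.Levi (P.D.rt p.1⁻¹ b) := by
      refine ⟨hΦ, fun i hi => ?_⟩
      have h2 := hl.2 i hi
      rwa [Pi.neg_apply, neg_eq_zero] at h2
    refine (x_levi p h1).1 ?_
    rw [P.D.rt_rt_inv]
    exact hb
  · rintro ⟨h, _⟩
    exact ⟨hb, (not_pos_iff hΦ).2 h⟩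

private theorem pd_levi {b : Fin r → ℤ} (hb : b ∈ P.D.Φ) (p : P.X) :
    ¬ P.Levi (P.D.rt p.1⁻¹ b) ↔ (P.D.rt p.1⁻¹ b ∈ P.Pos ∨ -P.D.rt p.1⁻¹ b ∈ P.Pos) := by
  have hΦ : P.D.rt p.1⁻¹ b ∈ P.D.Φ := P.D.rt_mem.2 hb
  constructor
  · intro h
    rcases cases hΦ with h1 | h1 | h1
    · exact absurd h1 h
    · exact Or.inl h1
    · exact Or.inr h1
  · rintro (h | h) hl
    · exact (mem_Pos.1 h).2 hl
    · refine (mem_Pos.1 h).2 ⟨neg_mem hΦ, fun i hi => ?_⟩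
      rw [Pi.neg_apply, hl.2 i hi, neg_zero]

private theorem pd_wj {v : P.D.W} (hv : v ∈ P.WJ) {a : Fin r → ℤ} :
    P.D.rt v a ∈ P.Pos ↔ a ∈ P.Pos := by
  refine ⟨fun h => ?_, fun h => wj_pos hv h⟩
  have h1 := wj_pos (P.WJ.inv_mem hv) h
  rwa [← P.D.rt_mul, inv_mul_cancel, P.D.rt_one] at h1

private theorem pd_lm {b : Fin r → ℤ} (hb : b ∈ P.D.Φ) (p : P.X) :
    ∃ v ∈ P.WJ, P.D.rt (P.lm (P.D.refl b) p).1⁻¹ b = P.D.rt v (-P.D.rt p.1⁻¹ b) := by
  obtain ⟨v, hv, h⟩ := fl_spec (P := P) (P.D.refl b * p.1)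
  refine ⟨v, hv, ?_⟩
  have h1 : (P.lm (P.D.refl b) p).1⁻¹ = v * (p.1⁻¹ * P.D.refl b) := by
    show (P.fl (P.D.refl b * p.1)).1⁻¹ = _
    have h2 : (P.fl (P.D.refl b * p.1)).1 = P.D.refl b * p.1 * v⁻¹ := by
      rw [eq_mul_inv_iff_mul_eq]
      exact h.symm
    rw [h2, mul_inv_rev, mul_inv_rev, inv_inv, refl_inv hb]
  rw [h1, P.D.rt_mul, P.D.rt_mul, rt_refl_self hb, P.D.rt_neg]

private theorem pd_invol {b : Fin r → ℤ} (hb : b ∈ P.D.Φ) (p : P.X) :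
    P.lm (P.D.refl b) (P.lm (P.D.refl b) p) = p := by
  rw [← lm_mul, refl_mul_self hb, lm_one]

open Classical in
theorem card_inv {b : Fin r → ℤ} (hb : b ∈ P.D.Pos) :
    2 * (Finset.univ.filter fun p : P.X => b ∈ P.D.Inv p.1).card =
      (Finset.univ.filter fun p : P.X => ¬ P.Levi (P.D.rt p.1⁻¹ b)).card := by
  have hΦ := mem_of_pos hb
  have h1 : (Finset.univ.filter fun p : P.X => b ∈ P.D.Inv p.1) =
      Finset.univ.filter fun p : P.X => -P.D.rt p.1⁻¹ b ∈ P.Pos :=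
    Finset.filter_congr fun p _ => pd_inv hb p
  have h2 : (Finset.univ.filter fun p : P.X => ¬ P.Levi (P.D.rt p.1⁻¹ b)) =
      (Finset.univ.filter fun p : P.X => P.D.rt p.1⁻¹ b ∈ P.Pos) ∪
        Finset.univ.filter fun p : P.X => -P.D.rt p.1⁻¹ b ∈ P.Pos := by
    rw [← Finset.filter_or]
    exact Finset.filter_congr fun p _ => pd_levi hΦ p
  have h3 : Disjoint (Finset.univ.filter fun p : P.X => P.D.rt p.1⁻¹ b ∈ P.Pos)
      (Finset.univ.filter fun p : P.X => -P.D.rt p.1⁻¹ b ∈ P.Pos) := by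
    refine Finset.disjoint_filter.2 fun p _ ha hb' => ?_
    exact neg_not_pos (mem_Pos.1 ha).1 (mem_Pos.1 hb').1
  have h4 : (Finset.univ.filter fun p : P.X => P.D.rt p.1⁻¹ b ∈ P.Pos).card =
      (Finset.univ.filter fun p : P.X => -P.D.rt p.1⁻¹ b ∈ P.Pos).card := by
    refine Finset.card_nbij' (fun p => P.lm (P.D.refl b) p) (fun p => P.lm (P.D.refl b) p) ?_ ?_ ?_ ?_
    · intro p hp
      rw [Finset.mem_coe, Finset.mem_filter] at hp ⊢
      obtain ⟨v, hv, h⟩ := pd_lm hΦ p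
      refine ⟨Finset.mem_univ _, ?_⟩
      show -P.D.rt (P.lm (P.D.refl b) p).1⁻¹ b ∈ P.Pos
      rw [h, P.D.rt_neg, neg_neg, pd_wj hv]
      exact hp.2
    · intro p hp
      rw [Finset.mem_coe, Finset.mem_filter] at hp ⊢
      obtain ⟨v, hv, h⟩ := pd_lm hΦ p
      refine ⟨Finset.mem_univ _, ?_⟩
      show P.D.rt (P.lm (P.D.refl b) p).1⁻¹ b ∈ P.Pos
      rw [h, pd_wj hv]
      exact hp.2
    · intro p _
      exact pd_invol hΦ p
    · intro p _
      exact pd_invol hΦ p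
  rw [h1, h2, Finset.card_union_of_disjoint h3, h4]
  omega

private theorem pd_neg (μ : Fin r → ℤ) : (1 - chr (-μ) : RH r) = -chr (-μ) * (1 - chr μ) := by
  have h : (chr μ * chr (-μ) : RH r) = 1 := chr_mul_neg μ
  linear_combination -h

open Classical in
/-- the tangent weights at `p` up to the sign -/
private theorem pd_tan (p : P.X) : ∃ u : (RH r)ˣ, ∏ a ∈ P.Pos, (1 - chr (P.D.rt p.1 a) : RH r) =
    u * ∏ b ∈ P.D.Pos.filter (fun b => ¬ P.Levi (P.D.rt p.1⁻¹ b)), (1 - chr b) := by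
  have hu : IsUnit (∏ a ∈ P.Pos, (if P.D.rt p.1 a ∈ P.D.Pos then 1 else -chr (P.D.rt p.1 a) : RH r)) := by
    refine Finset.prod_induction _ IsUnit (fun _ _ => IsUnit.mul) isUnit_one fun a _ => ?_
    split_ifs
    · exact isUnit_one
    · exact (isUnit_chr _).neg
  have h1 : ∏ a ∈ P.Pos, (1 - chr (P.D.rt p.1 a) : RH r) =
      (∏ a ∈ P.Pos, (if P.D.rt p.1 a ∈ P.D.Pos then 1 else -chr (P.D.rt p.1 a) : RH r)) *
        ∏ a ∈ P.Pos, (1 - chr (if P.D.rt p.1 a ∈ P.D.Pos then P.D.rt p.1 a else -P.D.rt p.1 a)) := by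
    rw [← Finset.prod_mul_distrib]
    refine Finset.prod_congr rfl fun a _ => ?_
    split_ifs
    · rw [one_mul]
    · have h := pd_neg (-P.D.rt p.1 a)
      rw [neg_neg] at h
      exact h
  have hinv : ∀ b, P.D.rt p.1 (P.D.rt p.1⁻¹ b) = b := fun b => P.D.rt_rt_inv p.1 b
  have hinv' : ∀ a, P.D.rt p.1⁻¹ (P.D.rt p.1 a) = a := fun a => by
    rw [← P.D.rt_mul, inv_mul_cancel, P.D.rt_one]
  have h2 : ∏ a ∈ P.Pos, (1 - chr (if P.D.rt p.1 a ∈ P.D.Pos then P.D.rt p.1 a else -P.D.rt p.1 a) : RH r) =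
      ∏ b ∈ P.D.Pos.filter (fun b => ¬ P.Levi (P.D.rt p.1⁻¹ b)), (1 - chr b) := by
    refine Finset.prod_bij' (fun a _ => if P.D.rt p.1 a ∈ P.D.Pos then P.D.rt p.1 a else -P.D.rt p.1 a)
      (fun b _ => if P.D.rt p.1⁻¹ b ∈ P.Pos then P.D.rt p.1⁻¹ b else -P.D.rt p.1⁻¹ b) ?_ ?_ ?_ ?_ ?_
    · intro a ha
      have haΦ : P.D.rt p.1 a ∈ P.D.Φ := P.D.rt_mem.2 (pos_mem ha)
      rw [Finset.mem_filter]
      split_ifs with h
      · exact ⟨h, by rw [hinv']; exact (mem_Pos.1 ha).2⟩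
      · have h3 : -P.D.rt p.1 a ∈ P.D.Pos := (not_pos_iff haΦ).1 h
        refine ⟨h3, (pd_levi (mem_of_pos h3) p).2 (Or.inr ?_)⟩
        rw [P.D.rt_neg, neg_neg, hinv']
        exact ha
    · intro b hb
      rw [Finset.mem_filter] at hb
      have h3 := (pd_levi (mem_of_pos hb.1) p).1 hb.2
      split_ifs with h
      · exact h
      · exact h3.resolve_left h
    · intro a ha
      have haΦ : P.D.rt p.1 a ∈ P.D.Φ := P.D.rt_mem.2 (pos_mem ha)
      beta_reduce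
      by_cases h : P.D.rt p.1 a ∈ P.D.Pos
      · rw [if_pos h, hinv', if_pos ha]
      · rw [if_neg h, P.D.rt_neg, hinv', if_neg, neg_neg]
        intro h3
        exact neg_not_pos (mem_Pos.1 ha).1 (mem_Pos.1 h3).1
    · intro b hb
      rw [Finset.mem_filter] at hb
      beta_reduce
      by_cases h : P.D.rt p.1⁻¹ b ∈ P.Pos
      · rw [if_pos h, hinv, if_pos hb.1]
      · rw [if_neg h, P.D.rt_neg, hinv, if_neg (neg_not_pos hb.1), neg_neg]
    · intro a _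
      rfl
  obtain ⟨u, hu'⟩ := hu
  refine ⟨u, ?_⟩
  rw [h1, h2, hu']

theorem prod_diag (P : Par r) : ∃ u : (RH r)ˣ,
    (∏ p : P.X, sK (P.Bk p p.1)) * ∏ p : P.X, P.Bk p p.1 =
      u * ∏ p : P.X, ∏ a ∈ P.Pos, (1 - chr (P.D.rt p.1 a)) := by
  classical
  have hd : ∀ p : P.X, P.Bk p p.1 = ∏ b ∈ P.D.Inv p.1, (1 - chr b) := fun p => (isB_Bk p).isB.diag
  have hs : ∀ p : P.X, sK (P.Bk p p.1) =
      (∏ b ∈ P.D.Inv p.1, (-chr (-b) : RH r)) * ∏ b ∈ P.D.Inv p.1, (1 - chr b) := by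
    intro p
    rw [hd, map_prod, ← Finset.prod_mul_distrib]
    refine Finset.prod_congr rfl fun b _ => ?_
    rw [map_sub, map_one, sK_chr]
    exact pd_neg b
  have hu : IsUnit (∏ p : P.X, ∏ b ∈ P.D.Inv p.1, (-chr (-b) : RH r)) := by
    refine Finset.prod_induction _ IsUnit (fun _ _ => IsUnit.mul) isUnit_one fun p _ => ?_
    refine Finset.prod_induction _ IsUnit (fun _ _ => IsUnit.mul) isUnit_one fun b _ => ?_
    exact (isUnit_chr (-b)).neg
  have hP : (∏ p : P.X, ∏ b ∈ P.D.Inv p.1, (1 - chr b : RH r)) =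
      ∏ b ∈ P.D.Pos, (1 - chr b) ^ (Finset.univ.filter fun p : P.X => b ∈ P.D.Inv p.1).card := by
    have h1 : ∀ p : P.X, ∏ b ∈ P.D.Inv p.1, (1 - chr b : RH r) =
        ∏ b ∈ P.D.Pos, if b ∈ P.D.Inv p.1 then (1 - chr b : RH r) else 1 := by
      intro p
      have h2 : P.D.Inv p.1 = P.D.Pos.filter fun b => b ∈ P.D.Inv p.1 := by
        ext b
        rw [Finset.mem_filter]
        refine ⟨fun h => ⟨?_, h⟩, fun h => h.2⟩
        unfold RS.Inv at h
        exact (Finset.mem_filter.1 h).1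
      conv_lhs => rw [h2]
      rw [Finset.prod_filter]
    rw [Finset.prod_congr rfl fun p _ => h1 p, Finset.prod_comm]
    refine Finset.prod_congr rfl fun b _ => ?_
    rw [← Finset.prod_filter, Finset.prod_const]
  have hT : (∏ p : P.X, ∏ b ∈ P.D.Pos.filter (fun b => ¬ P.Levi (P.D.rt p.1⁻¹ b)), (1 - chr b : RH r)) =
      ∏ b ∈ P.D.Pos, (1 - chr b) ^
        (Finset.univ.filter fun p : P.X => ¬ P.Levi (P.D.rt p.1⁻¹ b)).card := by
    have h1 : ∀ p : P.X, ∏ b ∈ P.D.Pos.filter (fun b => ¬ P.Levi (P.D.rt p.1⁻¹ b)), (1 - chr b : RH r) =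
        ∏ b ∈ P.D.Pos, if ¬ P.Levi (P.D.rt p.1⁻¹ b) then (1 - chr b : RH r) else 1 := fun p =>
      Finset.prod_filter _ _
    rw [Finset.prod_congr rfl fun p _ => h1 p, Finset.prod_comm]
    refine Finset.prod_congr rfl fun b _ => ?_
    rw [← Finset.prod_filter, Finset.prod_const]
  choose w hw using fun p : P.X => pd_tan p
  obtain ⟨u, hu'⟩ := hu
  refine ⟨u * (∏ p : P.X, w p)⁻¹, ?_⟩
  have hw' : (∏ p : P.X, ∏ a ∈ P.Pos, (1 - chr (P.D.rt p.1 a)) : RH r) =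
      (((∏ p : P.X, w p : (RH r)ˣ)) : RH r) * ∏ b ∈ P.D.Pos, (1 - chr b) ^
        (Finset.univ.filter fun p : P.X => ¬ P.Levi (P.D.rt p.1⁻¹ b)).card := by
    rw [Finset.prod_congr rfl fun p _ => hw p, Finset.prod_mul_distrib, hT, Units.coe_prod]
  rw [hw', Units.val_mul, mul_assoc, ← mul_assoc (((∏ p : P.X, w p)⁻¹ : (RH r)ˣ) : RH r), Units.inv_mul,
    one_mul, Finset.prod_congr rfl fun p _ => hs p, Finset.prod_mul_distrib, ← hu',
    Finset.prod_congr rfl fun p _ => hd p, mul_assoc, hP, ← Finset.prod_mul_distrib]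
  congr 1
  refine Finset.prod_congr rfl fun b hb => ?_
  rw [← pow_add, ← card_inv hb, two_mul]

private theorem pd_det (P : Par r) : (Matrix.of fun p j => P.Bk j p.1 : Matrix P.X P.X (RH r)).det =
    ∏ p : P.X, P.Bk p p.1 := by
  obtain ⟨n⟩ := exists_num P
  rw [← Matrix.det_submatrix_equiv_self n.e]
  rw [Matrix.det_of_isLowerTriangular]
  · exact Equiv.prod_comp n.e fun p : P.X => P.Bk p p.1
  · intro i j hij
    exact Bk_tri n hij

private theorem pd_sK (P : Par r) : (Matrix.of fun i p => sK (P.Bk i p.1) : Matrix P.X P.X (RH r)).det =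
    ∏ p : P.X, sK (P.Bk p p.1) := by
  have h1 : (Matrix.of fun i p => sK (P.Bk i p.1) : Matrix P.X P.X (RH r)) =
      (RingHom.mapMatrix sK (Matrix.of fun p j => P.Bk j p.1 : Matrix P.X P.X (RH r))).transpose := by
    exact Matrix.ext fun i p => rfl
  rw [h1, Matrix.det_transpose, ← RingHom.map_det, pd_det, map_prod]

private theorem pd_ne {y : Fin r → ℂ} (hy : ∀ a ∈ P.D.Φ, ∀ n : ℤ, pr a y ≠ n) (p : P.D.W) :
    ∏ a ∈ P.Pos, (1 - Complex.exp (2 * Real.pi * Complex.I * pr (P.D.rt p a) y)) ≠ 0 := by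
  refine Finset.prod_ne_zero_iff.2 fun a ha h => ?_
  have h1 : Complex.exp (2 * Real.pi * Complex.I * pr (P.D.rt p a) y) = 1 := (sub_eq_zero.1 h).symm
  obtain ⟨n, hn⟩ := Complex.exp_eq_one_iff.1 h1
  refine hy (P.D.rt p a) (P.D.rt_mem.2 (pos_mem ha)) n ?_
  have h2 : (2 * Real.pi * Complex.I : ℂ) ≠ 0 := Complex.two_pi_I_ne_zero
  apply mul_left_cancel₀ h2
  rw [hn]
  ring

private theorem pd_ev (p : P.D.W) (y : Fin r → ℂ) :
    evK y (∏ a ∈ P.Pos, (1 - chr (P.D.rt p a))) =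
      ∏ a ∈ P.Pos, (1 - Complex.exp (2 * Real.pi * Complex.I * pr (P.D.rt p a) y)) := by
  rw [map_prod]
  refine Finset.prod_congr rfl fun a _ => ?_
  rw [map_sub, map_one, evK_chr]

/-- the fixed point formula -/
private theorem pd_form (i j : P.X) : P.chiM i j * ∏ b ∈ P.D.Pos, (1 - chr b) =
    ∑ p : P.X, (-1) ^ P.D.len p.1 * chr (P.D.kap p.1) * (∏ a ∈ P.LPos, (1 - chr (P.D.rt p.1 a))) *
      (sK (P.Bk i p.1) * P.Bk j p.1) := by
  refine evK_ext (S := {y | ∀ a ∈ P.D.Φ, ∀ n : ℤ, pr a y ≠ n}) ?_ ?_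
  · refine (RS.dense_SG P.D).mono ?_
    intro y hy
    exact hy.1
  · intro y hy
    have hy' : ∀ a ∈ P.D.Φ, ∀ n : ℤ, pr a y ≠ n := hy
    rw [map_mul, isChi_chiM i j y hy', map_sum]
    unfold KSum
    rw [Finset.sum_mul]
    refine Finset.sum_congr rfl fun p _ => ?_
    rw [div_mul_eq_mul_div, div_eq_iff (pd_ne hy' p.1), ← pd_ev, ← den_eq p.1, prod_split, ← map_mul,
      ← map_mul]
    congr 1
    ring

theorem chiM_unit (P : Par r) :
    IsUnit (Matrix.of fun i j => P.chiM i j : Matrix P.X P.X (RH r)).det := by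
  set Δ : RH r := ∏ b ∈ P.D.Pos, (1 - chr b) with hΔ
  have hΔ0 : Δ ≠ 0 := Finset.prod_ne_zero_iff.2 fun _ hb => one_sub_ne (ne_zero (mem_of_pos hb))
  set E : P.X → RH r := fun p => (-1) ^ P.D.len p.1 * chr (P.D.kap p.1) *
    ∏ a ∈ P.LPos, (1 - chr (P.D.rt p.1 a)) with hE
  set Dp : P.X → RH r := fun p => ∏ a ∈ P.Pos, (1 - chr (P.D.rt p.1 a)) with hDp
  have hED : ∀ p, E p * Dp p = Δ := by
    intro p
    rw [hΔ, ← den_eq p.1, prod_split]
    simp only [hE, hDp]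
    ring
  have hD0 : (∏ p, Dp p) ≠ 0 := by
    refine Finset.prod_ne_zero_iff.2 fun p _ h => hΔ0 ?_
    rw [← hED p, h, mul_zero]
  have h1 : Δ • (Matrix.of fun i j => P.chiM i j : Matrix P.X P.X (RH r)) =
      (Matrix.of fun i p => sK (P.Bk i p.1)) * Matrix.diagonal E *
        (Matrix.of fun p j => P.Bk j p.1) := by
    refine Matrix.ext fun i j => ?_
    rw [Matrix.smul_apply, Matrix.of_apply, smul_eq_mul, mul_comm, hΔ, pd_form i j, Matrix.mul_apply]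
    refine Finset.sum_congr rfl fun p _ => ?_
    rw [Matrix.mul_diagonal, Matrix.of_apply, Matrix.of_apply]
    show E p * (sK (P.Bk i p.1) * P.Bk j p.1) = sK (P.Bk i p.1) * E p * P.Bk j p.1
    ring
  have h3 := congrArg Matrix.det h1
  rw [Matrix.det_smul, Matrix.det_mul, Matrix.det_mul, Matrix.det_diagonal, pd_sK, pd_det] at h3
  obtain ⟨u, hu⟩ := prod_diag P
  have hprod : (∏ p, E p) * ∏ p, Dp p = Δ ^ Fintype.card P.X := by
    rw [← Finset.prod_mul_distrib, Finset.prod_congr rfl fun p _ => hED p, Finset.prod_const,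
      Finset.card_univ]
  have h4 : (Δ ^ Fintype.card P.X * ∏ p, Dp p) *
      (Matrix.of fun i j => P.chiM i j : Matrix P.X P.X (RH r)).det =
      (Δ ^ Fintype.card P.X * ∏ p, Dp p) * u := by
    have hu' : (∏ p : P.X, sK (P.Bk p p.1)) * ∏ p : P.X, P.Bk p p.1 = u * ∏ p, Dp p := hu
    linear_combination (∏ p, Dp p) * h3 + (∏ p, E p) * (∏ p, Dp p) * hu' + (u * ∏ p, Dp p) * hprod
  rw [mul_left_cancel₀ (mul_ne_zero (pow_ne_zero _ hΔ0) hD0) h4]
  exact u.isUnit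

end Pool.Agent.FLG.Par
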