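import Pool.Agent.FLG.PK.Exi

/-!
# FLG-PK-Bas: every class of `G/P` is a combination of the `B_w`
-/

set_option autoImplicit false

open scoped BigOperators Topology
open Filter
open Pool.Agent.DST.TE Pool.Agent.DSTJ.Spec

namespace Pool.Agent.FLG.Par

open RS

variable {r : ℕ} {P : Par r}

/-- a right invariant family is determined by its values at the minimal representatives -/
theorem ri_fl {α : Type*} {f : P.D.W → α} (hf : P.RI f) (p : P.D.W) : f p = f (P.fl p).1 := by
  obtain ⟨v, hv, h⟩ := fl_spec p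
  conv_lhs => rw [h]
  exact hf _ v hv

/-- the reflections of inversions are shorter -/
private theorem pa_short {D : RS r} {w : D.W} {b : Fin r → ℤ} (hb : b ∈ D.Pos)
    (h : D.rt w⁻¹ b ∉ D.Pos) : D.len (D.refl b * w) < D.len w := by
  have hΦ := mem_of_pos hb
  have h1 : D.rt w⁻¹ b ∈ D.Φ := D.rt_mem.2 hΦ
  have h2 : -D.rt w⁻¹ b ∈ D.Pos := (not_pos_iff h1).1 h
  have h3 : w * D.refl (-D.rt w⁻¹ b) = D.refl b * w := by
    rw [refl_neg h1, refl_rt w⁻¹ hΦ, inv_inv, mul_assoc, mul_inv_cancel_left]
  have h4 : D.rt w (-D.rt w⁻¹ b) ∉ D.Pos := by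
    rw [D.rt_neg, D.rt_rt_inv]
    exact neg_not_pos hb
  have h5 := RS.len_lt_of_neg w h2 h4
  rwa [h3] at h5

/-- the value at an element of minimal length is divisible by the leading coefficient -/
private theorem pa_dvd {f : P.D.W → RH r} (hf : P.D.GKM f) {w : P.X}
    (h0 : ∀ p, P.len p < P.D.len w.1 → f p = 0) : ∃ c : RH r, f w.1 = c * P.Bk w w.1 := by
  have h1 : (∏ b ∈ P.D.Inv w.1, (1 - chr b : RH r)) ∣ f w.1 := by
    refine dvd_prod ?_ ?_
    · intro a ha b hb hne n k h
      unfold RS.Inv at ha hb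
      exact indep_pos (Finset.mem_filter.1 ha).1 (Finset.mem_filter.1 hb).1 hne n k h
    · intro b hb
      unfold RS.Inv at hb
      rw [Finset.mem_filter] at hb
      have h2 := hf w.1 b (mem_of_pos hb.1)
      rwa [h0 _ (lt_of_le_of_lt (len_le _) (pa_short hb.1 hb.2)), sub_zero] at h2
  obtain ⟨c, hc⟩ := h1
  refine ⟨c, ?_⟩
  rw [(isB_Bk w).isB.diag, hc, mul_comm]

private theorem pa_main (n : ℕ) : ∀ (k : ℕ) (f : P.D.W → RH r), P.D.dm + 1 ≤ n + k → P.D.GKM f →
    P.RI f → (∀ p, P.len p < k → f p = 0) →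
      ∃ c : P.X → RH r, ∀ p, f p = ∑ w, c w * P.Bk w p := by
  induction n with
  | zero =>
    intro k f hk _ _ h0
    refine ⟨fun _ => 0, fun p => ?_⟩
    rw [h0 p (by have h1 := len_le_dm p; have h2 := len_le (P := P) p; omega),
      Finset.sum_eq_zero]
    intro w _
    rw [zero_mul]
  | succ n ih =>
    intro k f hk hf hr h0
    have h1 : ∀ w : P.X, ∃ c : RH r, P.D.len w.1 = k → f w.1 = c * P.Bk w w.1 := by
      intro w
      by_cases hw : P.D.len w.1 = k
      · obtain ⟨c, hc⟩ := pa_dvd hf (w := w) (fun p hp => h0 p (by omega))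
        exact ⟨c, fun _ => hc⟩
      · exact ⟨0, fun h => absurd h hw⟩
    choose c hc using h1
    set c' : P.X → RH r := fun w => if P.D.len w.1 = k then c w else 0 with hc'
    have hg : P.D.GKM fun p => f p + ∑ w, (-c' w) * P.Bk w p := by
      refine gkm_add hf (gkm_sum _ fun w _ => ?_)
      exact gkm_mul (gkm_const _) (isB_Bk w).isB.gkm
    have hgr : P.RI fun p => f p + ∑ w, (-c' w) * P.Bk w p := by
      intro p v hv
      show f (p * v) + ∑ w, (-c' w) * P.Bk w (p * v) = f p + ∑ w, (-c' w) * P.Bk w p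
      rw [hr p v hv]
      congr 1
      refine Finset.sum_congr rfl fun w _ => ?_
      rw [(isB_Bk w).ri p v hv]
    have hX : ∀ p : P.X, P.D.len p.1 < k + 1 → f p.1 + ∑ w, (-c' w) * P.Bk w p.1 = 0 := by
      intro p hp
      by_cases hpk : P.D.len p.1 = k
      · rw [Finset.sum_eq_single p]
        · rw [hc p hpk]
          simp only [hc', if_pos hpk]
          ring
        · intro w _ hw
          by_cases hwk : P.D.len w.1 = k
          · have h2 : P.Bk w p.1 = 0 := by
              by_contra h3
              have h4 := ((isB_Bk w).isB.supp p.1 h3).len_lt (fun h => hw (Subtype.ext h))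
              omega
            rw [h2, mul_zero]
          · simp only [hc', if_neg hwk]
            ring
        · intro h
          exact absurd (Finset.mem_univ p) h
      · rw [h0 p.1 (by rw [len_val]; omega), zero_add]
        refine Finset.sum_eq_zero fun w _ => ?_
        by_cases hwk : P.D.len w.1 = k
        · have h2 : P.Bk w p.1 = 0 := by
            by_contra h3
            have h4 := ((isB_Bk w).isB.supp p.1 h3).len_le
            omega
          rw [h2, mul_zero]
        · simp only [hc', if_neg hwk]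
          ring
    obtain ⟨d, hd⟩ := ih (k + 1) _ (by omega) hg hgr (by
      intro p hp
      rw [ri_fl hgr p]
      refine hX (P.fl p) ?_
      rw [← len_val, len_fl]
      exact hp)
    refine ⟨fun w => d w + c' w, fun p => ?_⟩
    have h5 := hd p
    simp only [neg_mul, Finset.sum_neg_distrib] at h5
    simp only [add_mul, Finset.sum_add_distrib]
    rw [← h5]
    ring

theorem gkm_basis {f : P.D.W → RH r} (hf : P.D.GKM f) (hr : P.RI f) :
    ∃ c : P.X → RH r, ∀ p, f p = ∑ w, c w * P.Bk w p :=
  pa_main (P.D.dm + 1) 0 f (by omega) hf hr (fun p hp => absurd hp (Nat.not_lt_zero _))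

end Pool.Agent.FLG.Par
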