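import Pool.Agent.FLG.PK.Bas
import Pool.Agent.FLG.P.RmatA
import Pool.Agent.FLG.P.RmatB

/-!
# FLG-PK-Cls: classes of `G/P` with given restrictions; the `Γ`-class

As K/Cls.lean and K/Gh.lean.
-/

set_option autoImplicit false

open scoped BigOperators Topology
open Filter
open Pool.Agent.DST.TE Pool.Agent.DSTJ.Spec

namespace Pool.Agent.FLG.Par

open RS

variable {r : ℕ} {P : Par r}

open Classical in
private theorem cl_sum (g : P.D.W → ℂ) (x : P.X → ℂ) :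
    ∑ u, g u * (if h : ∀ j ∈ P.J, P.D.rt u (al j) ∈ P.D.Pos then x ⟨u, h⟩ else 0) =
      ∑ u : P.X, g u.1 * x u := by
  symm
  refine Finset.sum_of_injOn (fun u : P.X => u.1) ?_ ?_ ?_ ?_
  · intro a _ b _ h
    exact Subtype.ext h
  · intro a _
    exact Finset.mem_coe.2 (Finset.mem_univ _)
  · intro u _ hu
    rw [dif_neg, mul_zero]
    intro h
    exact hu ⟨⟨u, h⟩, Finset.mem_coe.2 (Finset.mem_univ _), rfl⟩
  · intro u _
    rw [dif_pos u.2]
    rfl

/-- the class of a right invariant family is a class of `G/P` (regular points) -/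
theorem cls_reg {H : P.D.W → (Fin r → ℂ) → ℂ} (hr : ∀ y, P.RI fun p => H p y) {y : Fin r → ℂ}
    (hy : ∀ a ∈ P.D.Φ, pr a y ≠ 0) {u : P.D.W} (hu : ¬ ∀ j ∈ P.J, P.D.rt u (al j) ∈ P.D.Pos) :
    P.D.cls H y u = 0 := by
  classical
  set x : P.X → ℂ := (P.Rm y)⁻¹.mulVec fun p : P.X => H p.1 y with hx
  have h1 : (P.Rm y).mulVec x = fun p : P.X => H p.1 y := by
    rw [hx, Matrix.mulVec_mulVec, Matrix.mul_nonsing_inv _ (isUnit_iff_ne_zero.2 (Rm_det_ne hy)),
      Matrix.one_mulVec]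
  set x' : P.D.W → ℂ := fun u => if h : ∀ j ∈ P.J, P.D.rt u (al j) ∈ P.D.Pos then x ⟨u, h⟩ else 0
    with hx'
  have h2 : (P.D.Rm y).mulVec x' = fun p => H p y := by
    funext p
    have h3 : (P.D.Rm y).mulVec x' p = ∑ u : P.X, P.D.Rm y p u.1 * x u :=
      cl_sum (fun u => P.D.Rm y p u) x
    rw [h3]
    have h4 : ∑ u : P.X, P.D.Rm y p u.1 * x u = (P.Rm y).mulVec x (P.fl p) := by
      refine Finset.sum_congr rfl fun u _ => ?_
      show P.D.Rm y p u.1 * x u = P.Rm y (P.fl p) u * x u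
      rw [Rm_fl y p u]
    rw [h4, h1]
    exact (ri_fl (hr y) p).symm
  have h3 : P.D.cls H y = (P.D.Rm y)⁻¹.mulVec fun p => H p y := by
    funext u
    exact cls_eq H hy u
  rw [h3, ← h2, Matrix.mulVec_mulVec,
    Matrix.nonsing_inv_mul _ (isUnit_iff_ne_zero.2 (RS.Rm_det_ne hy)), Matrix.one_mulVec, hx']
  exact dif_neg hu

theorem cls_out {H : P.D.W → (Fin r → ℂ) → ℂ} (hr : ∀ y, P.RI fun p => H p y) {y₀ : Fin r → ℂ}
    (h : P.D.GH H y₀) {u : P.D.W} (hu : ¬ ∀ j ∈ P.J, P.D.rt u (al j) ∈ P.D.Pos) :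
    P.D.cls H y₀ u = 0 := by
  refine cls_ext P.D (F := fun y => P.D.cls H y u) (G := fun _ => 0)
    (cls_diff h u).self_of_nhds.continuousAt continuousAt_const ?_
  exact Filter.Eventually.of_forall fun y hy => cls_reg hr hy hu

theorem ri_gg {t : Fin r → ℂ} (ht : P.Inv t) (y : Fin r → ℂ) : P.RI fun p => P.gg t p y := by
  intro p w hw
  show P.gg t (p * w) y = P.gg t p y
  unfold gg
  rw [hv_inv ht p hw, P.D.rt_mul, tr_inv hw]
  congr 1
  rw [← prod_Pos hw fun a => Complex.Gamma (1 + pr (P.D.rt p a) y)]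
  refine Finset.prod_congr rfl fun a _ => ?_
  rw [P.D.rt_mul]

theorem gg_val (t : Fin r → ℂ) (p : P.X) (y : Fin r → ℂ) : P.gg t p.1 y = P.gam t p y := by
  rfl

private theorem cl_gamma_ev (a : Fin r → ℤ) {y₀ : Fin r → ℂ} (h : ∀ n : ℤ, n ≠ 0 → pr a y₀ ≠ n) :
    ∀ᶠ y in 𝓝 y₀, DifferentiableAt ℂ (fun y : Fin r → ℂ => Complex.Gamma (1 + pr a y)) y := by
  have h0 : Differentiable ℂ fun y : Fin r → ℂ => 1 + pr a y := by
    unfold pr
    fun_prop
  have h1 : Continuous fun y : Fin r → ℂ => (Complex.Gamma (1 + pr a y))⁻¹ :=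
    Complex.differentiable_one_div_Gamma.continuous.comp h0.continuous
  have h2 : (Complex.Gamma (1 + pr a y₀))⁻¹ ≠ 0 := by
    refine inv_ne_zero (Complex.Gamma_ne_zero fun m hm => h (-(m + 1)) (by omega) ?_)
    push_cast
    linear_combination hm
  filter_upwards [h1.continuousAt.eventually_ne h2] with y hy
  have h3 : ∀ m : ℕ, 1 + pr a y ≠ -m := by
    intro m hm
    rw [hm, Complex.Gamma_neg_nat_eq_zero, inv_zero] at hy
    exact hy rfl
  exact (Complex.differentiableAt_Gamma _ h3).comp y (h0 y)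

private theorem cl_pr_wall (a : Fin r → ℤ) (p : P.D.W) {b : Fin r → ℤ} (hb : b ∈ P.D.Φ) {y : Fin r → ℂ}
    (hy : pr b y = 0) : pr (P.D.rt (P.D.refl b * p) a) y = pr (P.D.rt p a) y := by
  rw [P.D.rt_mul, P.D.pr_rt (P.D.refl b), refl_inv hb, yt_refl hb, hy, zero_smul, sub_zero]

private theorem cl_prod_diff {ι : Type*} (s : Finset ι) {f : ι → (Fin r → ℂ) → ℂ} {y : Fin r → ℂ}
    (h : ∀ a ∈ s, DifferentiableAt ℂ (f a) y) : DifferentiableAt ℂ (fun y => ∏ a ∈ s, f a y) y := by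
  induction s using Finset.cons_induction with
  | empty => simp
  | cons a s ha ih =>
    simp only [Finset.prod_cons]
    exact (h a (Finset.mem_cons_self a s)).mul
      (ih fun b hb => h b (Finset.mem_cons_of_mem hb))

private theorem cl_pos_mem {a : Fin r → ℤ} (ha : a ∈ P.Pos) : a ∈ P.D.Φ :=
  mem_of_pos (Finset.mem_filter.1 ha).1

theorem gh_gg (t : Fin r → ℂ) {y₀ : Fin r → ℂ}
    (hy : ∀ a ∈ P.D.Φ, ∀ n : ℤ, n ≠ 0 → pr a y₀ ≠ n) : P.D.GH (P.gg t) y₀ := by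
  have e1 := gh_exp (D := P.D) (-1) t y₀
  have e2 := gh_exp (D := P.D) (-(Real.pi * Complex.I)) P.ctr y₀
  have e3 : P.D.GH (fun p y => ∏ a ∈ P.Pos, Complex.Gamma (1 + pr (P.D.rt p a) y)) y₀ := by
    refine ⟨fun p => ?_, fun b hb _ p => Filter.Eventually.of_forall fun y hy0 => ?_⟩
    · have h1 : ∀ᶠ y in 𝓝 y₀, ∀ a ∈ P.Pos,
          DifferentiableAt ℂ (fun y : Fin r → ℂ => Complex.Gamma (1 + pr (P.D.rt p a) y)) y :=
        (Filter.eventually_all_finset _).2 fun a ha =>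
          cl_gamma_ev (P.D.rt p a) (hy _ (P.D.rt_mem.2 (cl_pos_mem ha)))
      filter_upwards [h1] with y h2
      exact cl_prod_diff P.Pos h2
    · exact Finset.prod_congr rfl fun a _ => by rw [cl_pr_wall a p hb hy0]
  have e4 : P.gg t = fun p y => (Complex.exp (-1 * P.D.hv t p y) *
      Complex.exp (-(Real.pi * Complex.I) * P.D.hv P.ctr p y)) *
      ∏ a ∈ P.Pos, Complex.Gamma (1 + pr (P.D.rt p a) y) := by
    funext p y
    unfold gg
    rw [← Complex.exp_add, hv_ctr]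
    congr 2
    ring
  rw [e4]
  exact gh_mul (gh_mul e1 e2) e3

/-- the classes `e^{t + πi c_1} Γ̂ Ch(B_i)` -/
noncomputable def GM (P : Par r) (t y : Fin r → ℂ) : Matrix P.X P.X ℂ :=
  Matrix.of fun u i => P.D.cls (fun p y => P.gg t p y * evK y (P.Bk i p)) y u.1

theorem GM_diff (t : Fin r → ℂ) {y₀ : Fin r → ℂ}
    (hy : ∀ a ∈ P.D.Φ, ∀ n : ℤ, n ≠ 0 → pr a y₀ ≠ n) (u i : P.X) :
    DifferentiableAt ℂ (fun y => P.GM t y u i) y₀ := by
  have h1 := gh_mul (gh_gg t hy) (gh_evK (isB_Bk i).isB.gkm y₀)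
  exact (cls_diff h1 u.1).self_of_nhds

theorem GM_res {t : Fin r → ℂ} (ht : P.Inv t) {y : Fin r → ℂ} (hy : ∀ a ∈ P.D.Φ, pr a y ≠ 0) :
    P.Rm y * P.GM t y = Matrix.diagonal (fun p => P.gam t p y) *
      Matrix.of fun p i : P.X => evK y (P.Bk i p.1) := by
  classical
  ext p i
  have hr : ∀ y, P.RI fun p => P.gg t p y * evK y (P.Bk i p) := by
    intro y q w hw
    show P.gg t (q * w) y * evK y (P.Bk i (q * w)) = _
    have h1 : P.gg t (q * w) y = P.gg t q y := ri_gg ht y q w hw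
    have h2 : P.Bk i (q * w) = P.Bk i q := (isB_Bk i).ri q w hw
    rw [h1, h2]
  have h1 := cls_res (H := fun p y => P.gg t p y * evK y (P.Bk i p)) hy p.1
  have h2 : (P.D.Rm y).mulVec (P.D.cls (fun p y => P.gg t p y * evK y (P.Bk i p)) y) p.1 =
      ∑ u : P.X, P.D.Rm y p.1 u.1 * P.GM t y u i := by
    rw [← cl_sum (fun u => P.D.Rm y p.1 u) fun u => P.GM t y u i]
    refine Finset.sum_congr rfl fun u _ => ?_
    by_cases hu : ∀ j ∈ P.J, P.D.rt u (al j) ∈ P.D.Pos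
    · rw [dif_pos hu]
      rfl
    · rw [dif_neg hu, cls_reg hr hy hu]
  rw [Matrix.diagonal_mul, Matrix.mul_apply]
  have h3 : ∑ j, P.Rm y p j * P.GM t y j i = ∑ u : P.X, P.D.Rm y p.1 u.1 * P.GM t y u i := rfl
  rw [h3, ← h2, h1, gg_val]
  rfl

end Pool.Agent.FLG.Par
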