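import Pool.Agent.FLG.PK.Chi
import Pool.Agent.FLG.PK.Bas
import Pool.Agent.FLG.PK.Cls

/-!
# FLG-PK-Ev: elements of the representation ring of the parabolic subgroup

Weights modulo the root lattice; the action `w h = h + ca (dl h w)` of the Weyl group on the weights.
-/

set_option autoImplicit false

open scoped BigOperators Topology
open Filter
open Pool.Agent.DST.TE Pool.Agent.DSTJ.Spec

namespace Pool.Agent.FLG.Par

open RS

variable {r : ℕ} {P : Par r}

private abbrev Wt (P : Par r) : Type := {h : Fin r → ℂ // P.D.IsWt h}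

private theorem ev_isWt_ca (P : Par r) (κ : Fin r → ℤ) : P.D.IsWt (ca κ) := by
  intro i
  refine ⟨dotProduct (P.D.co (al i)) κ, ?_⟩
  unfold ch ca dotProduct
  push_cast
  exact Finset.sum_congr rfl fun j _ => by ring

private theorem ev_hv_ca (P : Par r) (κ : Fin r → ℤ) (p : P.D.W) (y : Fin r → ℂ) :
    P.D.hv (ca κ) p y = pr (P.D.rt p κ) y := by
  rw [P.D.pr_rt]
  rfl

private theorem ev_dl_ca (P : Par r) (κ : Fin r → ℤ) (p : P.D.W) :
    P.D.dl (ca κ) p = P.D.rt p κ - κ := by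
  refine dl_unique (ev_isWt_ca P κ) fun y => ?_
  rw [ev_hv_ca, ev_hv_ca, P.D.rt_one, ← pr_add_left]
  congr 1
  abel

private theorem ev_ca_add (a b : Fin r → ℤ) : ca (a + b) = ca a + ca b := by
  funext j
  simp [ca]

private theorem ev_ca_zero : ca (0 : Fin r → ℤ) = 0 := by
  funext j
  simp [ca]

private theorem ev_ca_inj {a b : Fin r → ℤ} (h : ca a = ca b) : a = b := by
  funext j
  have h1 := congrFun h j
  unfold ca at h1
  exact_mod_cast h1

/-- the weight `h + κ` -/
private def sh (h : Wt P) (κ : Fin r → ℤ) : Wt P := ⟨h.1 + ca κ, isWt_add h.2 (ev_isWt_ca P κ)⟩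

private theorem ev_dl_sh (h : Wt P) (κ : Fin r → ℤ) (p : P.D.W) :
    P.D.dl (sh h κ).1 p = P.D.dl h.1 p + (P.D.rt p κ - κ) := by
  show P.D.dl (h.1 + ca κ) p = _
  rw [dl_add h.2 (ev_isWt_ca P κ), ev_dl_ca]

private theorem sh_sh (h : Wt P) (a b : Fin r → ℤ) : sh (sh h a) b = sh h (a + b) := by
  apply Subtype.ext
  show h.1 + ca a + ca b = h.1 + ca (a + b)
  rw [ev_ca_add, add_assoc]

private theorem sh_zero (h : Wt P) : sh h 0 = h := by
  apply Subtype.ext
  show h.1 + ca 0 = h.1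
  rw [ev_ca_zero, add_zero]

private theorem sh_inj {h : Wt P} {a b : Fin r → ℤ} (e : sh h a = sh h b) : a = b := by
  have h1 : h.1 + ca a = h.1 + ca b := congrArg Subtype.val e
  exact ev_ca_inj (add_left_cancel h1)

/-- the action of the Weyl group on the weights -/
private noncomputable def ac (w : P.D.W) (h : Wt P) : Wt P := sh h (P.D.dl h.1 w)

private theorem ac_mul (w w' : P.D.W) (h : Wt P) : ac (w * w') h = ac w (ac w' h) := by
  unfold ac
  rw [sh_sh, ev_dl_sh, dl_mul h.2]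
  congr 1
  abel

private theorem ac_one (h : Wt P) : ac 1 h = h := by
  unfold ac
  rw [dl_one h.2, sh_zero]

private theorem invK_iff {x : P.D.KB} : P.InvK x ↔ ∀ w ∈ P.WJ, ∀ h : Wt P, x (ac w h) = x h := by
  constructor
  · intro hx w hw h
    exact hx w hw h (ac w h) rfl
  · intro hx w hw h k hk
    have h1 : k = ac w h := Subtype.ext hk
    rw [h1]
    exact hx w hw h

theorem invK_zero (P : Par r) : P.InvK 0 := fun _ _ _ _ _ => rfl

theorem invK_add {x y : P.D.KB} (hx : P.InvK x) (hy : P.InvK y) : P.InvK (x + y) := by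
  intro w hw h k hk
  rw [Finsupp.add_apply, Finsupp.add_apply, hx w hw h k hk, hy w hw h k hk]

theorem invK_smul (m : ℤ) {x : P.D.KB} (hx : P.InvK x) : P.InvK (m • x) := by
  intro w hw h k hk
  rw [Finsupp.smul_apply, Finsupp.smul_apply, hx w hw h k hk]

theorem invK_sum {κ : Type*} (s : Finset κ) {x : κ → P.D.KB} (hx : ∀ i ∈ s, P.InvK (x i)) :
    P.InvK (∑ i ∈ s, x i) := by
  classical
  induction s using Finset.induction_on with
  | empty =>
    rw [Finset.sum_empty]
    exact invK_zero P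
  | insert a s ha ih =>
    rw [Finset.sum_insert ha]
    exact invK_add (hx a (Finset.mem_insert_self a s)) (ih fun i hi => hx i (Finset.mem_insert_of_mem hi))

private theorem ev_aug_mul (f g : RH r) : aug (f * g) = aug f * aug g :=
  aug_eq (by rw [map_mul, evK_aug, evK_aug]; push_cast; rfl)

private theorem ev_aug_chr (μ : Fin r → ℤ) : aug (chr μ : RH r) = 1 :=
  aug_eq (by rw [evK_chr, pr_zero_right, mul_zero, Complex.exp_zero, Int.cast_one])

private theorem ev_aug_int (m : ℤ) : aug ((m : ℤ) : RH r) = m := aug_eq (by rw [map_intCast])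

private theorem ev_aR_add (z z' : P.D.KR) : aR (z + z') = aR z + aR z' := by
  unfold aR
  exact Finsupp.mapRange_add aug_add z z'

private theorem ev_aR_sum {κ : Type*} (s : Finset κ) (z : κ → P.D.KR) : aR (∑ i ∈ s, z i) = ∑ i ∈ s, aR (z i) := by
  classical
  induction s using Finset.induction_on with
  | empty =>
    rw [Finset.sum_empty, Finset.sum_empty]
    unfold aR
    exact Finsupp.mapRange_zero
  | insert a s ha ih => rw [Finset.sum_insert ha, Finset.sum_insert ha, ev_aR_add, ih]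

private theorem ev_aR_single (h : Wt P) (a : RH r) :
    aR (Finsupp.single h a : P.D.KR) = Finsupp.single h (aug a) := by
  unfold aR
  exact Finsupp.mapRange_single

private theorem ev_aR_smul (a : RH r) (z : P.D.KR) : aR (a • z) = aug a • aR z := by
  unfold aR
  ext h
  rw [Finsupp.mapRange_apply, Finsupp.smul_apply, Finsupp.smul_apply, Finsupp.mapRange_apply,
    smul_eq_mul, smul_eq_mul, ev_aug_mul]

private theorem ev_LR_smul (a : RH r) (z : P.D.KR) (p : P.D.W) : P.D.LR (a • z) p = a * P.D.LR z p := by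
  unfold LR
  rw [Finsupp.sum_smul_index (by intro h; rw [zero_mul])]
  unfold Finsupp.sum
  rw [Finset.mul_sum]
  exact Finset.sum_congr rfl fun h _ => by ring

private theorem ev_single (κ : Fin r → ℤ) (m : ℤ) :
    (AddMonoidAlgebra.single κ m : RH r) = (m : RH r) * chr κ := by
  rw [← zsmul_eq_mul]
  unfold chr
  rw [AddMonoidAlgebra.smul_single, smul_eq_mul, mul_one]

private theorem ev_expand (F : RH r) :
    F = ∑ κ ∈ F.coeff.support, ((F.coeff κ : ℤ) : RH r) * chr κ := by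
  conv_lhs => rw [← AddMonoidAlgebra.sum_coeff_single F]
  unfold Finsupp.sum
  exact Finset.sum_congr rfl fun κ _ => ev_single κ _

theorem vb_z {μ : Fin r → ℂ} {F : RH r} (h : P.IsMult μ F) :
    ∃ z : P.D.KR, (∀ p, P.VB μ F p = P.D.LR z p) ∧ P.InvK (aR z) := by
  obtain ⟨hμ, hF⟩ := h
  obtain ⟨m, hm⟩ : ∃ m : Wt P, m = ⟨μ, hμ⟩ := ⟨_, rfl⟩
  have hm1 : m.1 = μ := by rw [hm]
  obtain ⟨z, hz⟩ : ∃ z : P.D.KR, z = ∑ κ ∈ F.coeff.support,
    Finsupp.single (sh m κ) (((F.coeff κ : ℤ) : RH r) * chr (-κ)) := ⟨_, rfl⟩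
  have haR : aR z = ∑ κ ∈ F.coeff.support, Finsupp.single (sh m κ) (F.coeff κ) := by
    rw [hz, ev_aR_sum]
    refine Finset.sum_congr rfl fun κ _ => ?_
    rw [ev_aR_single, ev_aug_mul, ev_aug_int, ev_aug_chr, mul_one]
  have hval : ∀ κ, aR z (sh m κ) = F.coeff κ := by
    intro κ
    rw [haR, Finsupp.finsetSum_apply, Finset.sum_eq_single κ]
    · exact Finsupp.single_eq_same
    · intro κ' _ hne
      exact Finsupp.single_eq_of_ne (fun e => hne (sh_inj e).symm)
    · intro hκ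
      rw [Finsupp.notMem_support_iff.1 hκ, Finsupp.single_zero]
      rfl
  have hval0 : ∀ k : Wt P, (∀ κ, k ≠ sh m κ) → aR z k = 0 := by
    intro k hk
    rw [haR, Finsupp.finsetSum_apply]
    refine Finset.sum_eq_zero fun κ _ => ?_
    exact Finsupp.single_eq_of_ne (fun e => hk κ e)
  refine ⟨z, fun p => ?_, invK_iff.2 ?_⟩
  · rw [hz, LR_sum]
    unfold VB
    conv_lhs => rw [ev_expand F]
    rw [map_sum, map_sum, Finset.mul_sum]
    refine Finset.sum_congr rfl fun κ _ => ?_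
    rw [LR_single, map_mul, map_mul, map_intCast, map_intCast, sK_chr, wK_chr, P.D.rt_neg]
    unfold LB
    rw [ev_dl_sh, hm1]
    have e : -(P.D.dl μ p + (P.D.rt p κ - κ)) = -P.D.dl μ p + (-P.D.rt p κ + κ) := by abel
    rw [e, chr_add, chr_add]
    have e2 : (chr (-κ) * chr κ : RH r) = 1 := by rw [← chr_add, neg_add_cancel, chr_zero]
    linear_combination (-(((F.coeff κ : ℤ) : RH r) * chr (-P.D.dl μ p) * chr (-P.D.rt p κ))) * e2
  · intro w hw k
    by_cases hk : ∃ κ, k = sh m κ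
    · obtain ⟨κ, rfl⟩ := hk
      have e : ac w (sh m κ) = sh m (P.D.dl μ w + P.D.rt w κ) := by
        unfold ac
        rw [ev_dl_sh, sh_sh, hm1]
        congr 1
        abel
      rw [e, hval, hval]
      have h1 := hF w hw
      have h2 : (chr (P.D.dl μ w) * P.D.wK w F).coeff (P.D.dl μ w + P.D.rt w κ) =
          F.coeff (P.D.dl μ w + P.D.rt w κ) := by rw [h1]
      rw [← h2]
      unfold chr
      rw [AddMonoidAlgebra.coeff_single_mul_add, one_mul]
      exact Finsupp.mapDomain_apply (P.D.rt_inj w) _ _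
    · push Not at hk
      rw [hval0 k hk, hval0]
      intro κ hκ
      apply hk (κ + -P.D.dl k.1 w)
      rw [← sh_sh, ← hκ]
      unfold ac
      rw [sh_sh, add_neg_cancel, sh_zero]

theorem linJ_z {f : P.D.W → RH r} (hf : P.LinJ f) :
    ∃ z : P.D.KR, (∀ p, f p = P.D.LR z p) ∧ P.InvK (aR z) := by
  obtain ⟨n, μ, F, a, hM, hf⟩ := hf
  choose z hz hzi using fun k => vb_z (hM k)
  refine ⟨∑ k, a k • z k, fun p => ?_, ?_⟩
  · rw [hf p, LR_sum]
    refine Finset.sum_congr rfl fun k _ => ?_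
    rw [ev_LR_smul, hz]
  · rw [ev_aR_sum]
    refine invK_sum _ fun k _ => ?_
    rw [ev_aR_smul]
    exact invK_smul _ (hzi k)

/-- the element of the representation ring which represents `B_w` -/
noncomputable def bB (w : P.X) : P.D.KB := aR (linJ_z (isB_Bk w).lin).choose

theorem invK_bB (w : P.X) : P.InvK (bB w) := (linJ_z (isB_Bk w).lin).choose_spec.2

private theorem ev_zB (w : P.X) : ∃ z : P.D.KR, (∀ p, P.Bk w p = P.D.LR z p) ∧ bB w = aR z :=
  ⟨(linJ_z (isB_Bk w).lin).choose, (linJ_z (isB_Bk w).lin).choose_spec.1, rfl⟩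

theorem cls_Bk (w : P.X) (u : P.D.W) : P.D.cls (fun p y => evK y (P.Bk w p)) 0 u =
    (2 * Real.pi * Complex.I) ^ P.D.len u * P.D.chK (bB w) u := by
  obtain ⟨z, hz, hb⟩ := ev_zB w
  have h1 : (fun (p : P.D.W) (y : Fin r → ℂ) => evK y (P.Bk w p)) =
      fun p y => evK y (P.D.LR z p) := by
    funext p y
    rw [hz]
  rw [h1, cls_LR, hb]

theorem chiM_eul (i j : P.X) : evK 0 (P.chiM i j) = P.D.eul (bB i) (bB j) := by
  obtain ⟨z, hz, hb⟩ := ev_zB i
  obtain ⟨z', hz', hb'⟩ := ev_zB j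
  rw [hb, hb']
  refine eul_aR ?_
  have h1 := isChiD_chiM (P := P) i j
  have h2 : (fun p => sK (P.Bk i p) * P.Bk j p) = fun p => sK (P.D.LR z p) * P.D.LR z' p := by
    funext p
    rw [hz, hz']
  rwa [h2] at h1

theorem exists_lift {x : P.D.KB} (hx : P.InvK x) :
    ∃ z : P.D.KR, aR z = x ∧ P.RI (P.D.LR z) := by
  let S : Setoid (Wt P) :=
    { r := fun h k => ∃ κ, k = sh h κ
      iseqv :=
        { refl := fun h => ⟨0, (sh_zero h).symm⟩
          symm := by
            rintro h k ⟨κ, rfl⟩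
            exact ⟨-κ, by rw [sh_sh, add_neg_cancel, sh_zero]⟩
          trans := by
            rintro h k l ⟨κ, rfl⟩ ⟨κ', rfl⟩
            exact ⟨κ + κ', by rw [sh_sh]⟩ } }
  obtain ⟨rep, hrep⟩ : ∃ rep : Wt P → Wt P, rep = fun h => (Quotient.mk S h).out := ⟨_, rfl⟩
  have h1 : ∀ h : Wt P, ∃ κ, h = sh (rep h) κ := by
    intro h
    rw [hrep]
    exact Quotient.exact (s := S) (Quotient.out_eq (Quotient.mk S h))
  choose δ hδ using h1
  have hrepe : ∀ (h : Wt P) (κ : Fin r → ℤ), rep (sh h κ) = rep h := by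
    intro h κ
    rw [hrep]
    show (Quotient.mk S (sh h κ)).out = (Quotient.mk S h).out
    have h2 : Quotient.mk S h = Quotient.mk S (sh h κ) := Quotient.sound ⟨κ, rfl⟩
    rw [h2]
  have hδs : ∀ (h : Wt P) (κ : Fin r → ℤ), δ (sh h κ) = δ h + κ := by
    intro h κ
    have h2 := hδ (sh h κ)
    rw [hrepe] at h2
    conv_lhs at h2 => rw [hδ h, sh_sh]
    exact (sh_inj h2).symm
  obtain ⟨c, hc⟩ : ∃ c : Wt P → RH r, c = fun h => ((x h : ℤ) : RH r) * chr (-δ h) := ⟨_, rfl⟩
  refine ⟨∑ h ∈ x.support, Finsupp.single h (c h), ?_, ?_⟩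
  · rw [ev_aR_sum]
    have h2 : ∀ h ∈ x.support, aR (Finsupp.single h (c h) : P.D.KR) = Finsupp.single h (x h) := by
      intro h _
      rw [ev_aR_single, hc]
      show Finsupp.single h (aug (((x h : ℤ) : RH r) * chr (-δ h))) = _
      rw [ev_aug_mul, ev_aug_int, ev_aug_chr, mul_one]
    rw [Finset.sum_congr rfl h2]
    exact Finsupp.sum_single x
  · intro p w hw
    rw [LR_sum, LR_sum]
    have hx' := invK_iff.1 hx
    refine Finset.sum_nbij' (ac w) (ac w⁻¹) ?_ ?_ ?_ ?_ ?_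
    · intro h hh
      rw [Finsupp.mem_support_iff] at hh ⊢
      rwa [hx' w hw]
    · intro h hh
      rw [Finsupp.mem_support_iff] at hh ⊢
      rwa [hx' w⁻¹ (P.WJ.inv_mem hw)]
    · intro h _
      rw [← ac_mul, inv_mul_cancel, ac_one]
    · intro h _
      rw [← ac_mul, mul_inv_cancel, ac_one]
    · intro h _
      rw [LR_single, LR_single, hc]
      show ((x h : ℤ) : RH r) * chr (-δ h) * P.D.LB h.1 (p * w) =
        ((x (ac w h) : ℤ) : RH r) * chr (-δ (ac w h)) * P.D.LB (ac w h).1 p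
      rw [hx' w hw]
      unfold ac LB
      rw [hδs, ev_dl_sh, dl_mul h.2, mul_assoc, mul_assoc, ← chr_add, ← chr_add]
      congr 2
      abel

/-- the Chern character of an element of the representation ring of the parabolic subgroup is in
`H^*(G/P)` -/
theorem chK_out {x : P.D.KB} (hx : P.InvK x) {u : P.D.W}
    (hu : ¬ ∀ j ∈ P.J, P.D.rt u (al j) ∈ P.D.Pos) : P.D.chK x u = 0 := by
  obtain ⟨z, hz, hr⟩ := exists_lift hx
  have h1 := cls_LR z u
  rw [hz] at h1
  have h2 : P.D.cls (fun p y => evK y (P.D.LR z p)) 0 u = 0 := by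
    refine cls_out (H := fun p y => evK y (P.D.LR z p)) ?_ (gh_evK (gkm_LR z) 0) hu
    intro y p w hw
    show evK y (P.D.LR z (p * w)) = evK y (P.D.LR z p)
    rw [hr p w hw]
  rw [h2] at h1
  have h3 : (2 * Real.pi * Complex.I : ℂ) ^ P.D.len u ≠ 0 := pow_ne_zero _ Complex.two_pi_I_ne_zero
  exact (mul_eq_zero.1 h1.symm).resolve_left h3

private theorem ev_coeff {x : P.D.KB} (hx : P.InvK x) : ∃ (z : P.D.KR) (c : P.X → RH r), aR z = x ∧
    ∀ p, P.D.LR z p = ∑ w, c w * P.Bk w p := by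
  obtain ⟨z, hz, hr⟩ := exists_lift hx
  obtain ⟨c, hc⟩ := gkm_basis (gkm_LR z) hr
  exact ⟨z, c, hz, hc⟩

/-- the `b_w` generate, and the Euler form is determined by its values on them -/
theorem basis (P : Par r) : ∃ c : P.D.KB → P.X → ℤ,
    (∀ x, P.InvK x → ∀ u, P.D.chK x u = ∑ w, (c x w : ℂ) * P.D.chK (bB w) u) ∧
    ∀ x y, P.InvK x → P.InvK y → P.D.eul x y =
      ∑ w, ∑ w', (c x w : ℂ) * (c y w' : ℂ) * P.D.eul (bB w) (bB w') := by
  classical
  have hex : ∀ x : P.D.KB, ∃ (z : P.D.KR) (c : P.X → RH r), P.InvK x → (aR z = x ∧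
      ∀ p, P.D.LR z p = ∑ w, c w * P.Bk w p) := by
    intro x
    by_cases hx : P.InvK x
    · obtain ⟨z, c, h1, h2⟩ := ev_coeff hx
      exact ⟨z, c, fun _ => ⟨h1, h2⟩⟩
    · exact ⟨0, 0, fun h => absurd h hx⟩
  choose z c hzc using hex
  refine ⟨fun x w => aug (c x w), ?_, ?_⟩
  · intro x hx u
    obtain ⟨hz, hc⟩ := hzc x hx
    have h1 := cls_LR (z x) u
    rw [hz] at h1
    have h2 : (fun (p : P.D.W) (y : Fin r → ℂ) => evK y (P.D.LR (z x) p)) =
        fun p y => ∑ w, evK y (c x w) * evK y (P.Bk w p) := by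
      funext p y
      rw [hc, map_sum]
      exact Finset.sum_congr rfl fun w _ => map_mul _ _ _
    have hd : ∀ w, ∀ᶠ y in 𝓝 (0 : Fin r → ℂ), DifferentiableAt ℂ (fun y => evK y (c x w)) y :=
      fun w => Eventually.of_forall fun y => evK_diff (c x w) y
    rw [h2, cls_sum Finset.univ (H := fun w p y => evK y (c x w) * evK y (P.Bk w p))
      (fun w _ => gh_mul (gh_const (hd w)) (gh_evK (isB_Bk w).isB.gkm 0)) u] at h1
    have h3 : ∀ w, P.D.cls (fun p y => evK y (c x w) * evK y (P.Bk w p)) 0 u =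
        (2 * Real.pi * Complex.I) ^ P.D.len u * ((aug (c x w) : ℂ) * P.D.chK (bB w) u) := by
      intro w
      rw [cls_smul (hd w) (gh_evK (isB_Bk w).isB.gkm 0) u, cls_Bk, evK_aug]
      ring
    rw [Finset.sum_congr rfl fun w _ => h3 w, ← Finset.mul_sum] at h1
    have h4 : (2 * Real.pi * Complex.I : ℂ) ^ P.D.len u ≠ 0 := pow_ne_zero _ Complex.two_pi_I_ne_zero
    exact (mul_left_cancel₀ h4 h1).symm
  · intro x y hx hy
    obtain ⟨hz, hc⟩ := hzc x hx
    obtain ⟨hz', hc'⟩ := hzc y hy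
    have hg : P.D.GKM fun p => sK (P.D.LR (z x) p) * P.D.LR (z y) p :=
      gkm_mul (gkm_sK (gkm_LR _)) (gkm_LR _)
    obtain ⟨F, hF⟩ := exists_chi hg
    have h1 := eul_aR hF
    rw [hz, hz'] at h1
    rw [← h1]
    have h2 : (fun p => sK (P.D.LR (z x) p) * P.D.LR (z y) p) = fun p => ∑ w, ∑ w',
        (sK (c x w) * c y w') * (sK (P.Bk w p) * P.Bk w' p) := by
      funext p
      rw [hc, hc', map_sum, Finset.sum_mul_sum]
      refine Finset.sum_congr rfl fun w _ => Finset.sum_congr rfl fun w' _ => ?_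
      rw [map_mul]
      ring
    rw [h2] at hF
    have h3 : P.D.IsChi (fun p => ∑ w, ∑ w', (sK (c x w) * c y w') * (sK (P.Bk w p) * P.Bk w' p))
        (∑ w, ∑ w', (sK (c x w) * c y w') * P.chiM w w') :=
      isChi_sum _ fun w _ => isChi_sum _ fun w' _ => isChi_mul _ (isChiD_chiM w w')
    rw [chi_unique hF h3, map_sum]
    refine Finset.sum_congr rfl fun w _ => ?_
    rw [map_sum]
    refine Finset.sum_congr rfl fun w' _ => ?_
    rw [map_mul, map_mul, evK_sK, neg_zero, evK_aug, evK_aug, chiM_eul]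

end Pool.Agent.FLG.Par
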