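import Pool.Agent.FLG.PK.Cls

/-! FLG-PK-Gam: the `Γ`-class of `G/P` as an exponential. -/

set_option autoImplicit false

open scoped BigOperators Topology
open Filter
open Pool.Agent.DST.TE Pool.Agent.DSTJ.Spec

namespace Pool.Agent.FLG.Par

open RS

variable {r : ℕ} {P : Par r}

variable {D : RS r}

/-! ### the exponential, for a set of roots and a divisor class -/

private theorem yt_diffG (w : D.W) : Differentiable ℂ fun y : Fin r → ℂ => D.yt w y := by
  rw [differentiable_pi]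
  intro j
  unfold yt
  fun_prop

private theorem mop_apply (H : D.W → (Fin r → ℂ) → ℂ) (y : Fin r → ℂ) (u a : D.W) :
    D.mop H y u a = D.cls (fun p y => H p y * D.Rm y p a) y u := rfl

private theorem lin_diff (h : Fin r → ℂ) :
    Differentiable ℂ fun x : Fin r → ℂ => -∑ j, h j * x j := by
  fun_prop

private theorem C0_cont (h : Fin r → ℂ) : Continuous fun y : Fin r → ℂ => D.C0 h y := by
  refine continuous_matrix fun u v => ?_
  unfold RS.C0 hv yt
  by_cases huv : u = v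
  · subst huv
    simp only [Matrix.sub_apply, Matrix.diagonal_apply_eq]
    fun_prop
  · simp only [Matrix.sub_apply, Matrix.diagonal_apply_ne _ huv]
    fun_prop

/-- the linear form `-h` -/
private noncomputable def ln (h x : Fin r → ℂ) : ℂ := -∑ j, h j * x j

private theorem ln_diff (h : Fin r → ℂ) : Differentiable ℂ (ln h) := lin_diff h

private theorem ln_zero (h : Fin r → ℂ) : ln h 0 = 0 := by
  simp [ln]

/-- `t + πi c_1 + ∑_{a > 0} log Γ(1 - a)` up to degree `dim` -/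
private noncomputable def gA (D : RS r) (S : Finset (Fin r → ℤ)) (c t x : Fin r → ℂ) : ℂ :=
  ln t x + Real.pi * Complex.I * ln c x +
    ∑ k ∈ Finset.Icc 1 D.dm, gco k * ∑ a ∈ S, ln (ca a) x ^ k

private noncomputable def gX (D : RS r) (S : Finset (Fin r → ℤ)) (c t y : Fin r → ℂ) :
    Matrix D.W D.W ℂ :=
  D.C0 t y + (Real.pi * Complex.I : ℂ) • D.C0 c y +
    ∑ k ∈ Finset.Icc 1 D.dm, gco k • ∑ a ∈ S, D.C0 (ca a) y ^ k

private theorem inter_pow {R X : Matrix D.W D.W ℂ} {d : D.W → ℂ}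
    (h : R * X = Matrix.diagonal d * R) (k : ℕ) :
    R * X ^ k = Matrix.diagonal (fun p => d p ^ k) * R := by
  induction k with
  | zero =>
    have h1 : (Matrix.diagonal fun p : D.W => d p ^ 0) = 1 := by
      simp only [pow_zero]
      exact Matrix.diagonal_one
    rw [h1, pow_zero, Matrix.mul_one, Matrix.one_mul]
  | succ k ih =>
    rw [pow_succ, ← Matrix.mul_assoc, ih, Matrix.mul_assoc, h, ← Matrix.mul_assoc,
      Matrix.diagonal_mul_diagonal]
    rfl

private theorem inter_exp {R X : Matrix D.W D.W ℂ} {d : D.W → ℂ} (hR : IsUnit R.det)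
    (h : R * X = Matrix.diagonal d * R) :
    R * NormedSpace.exp X = Matrix.diagonal (fun p => Complex.exp (d p)) * R := by
  have hu : IsUnit R := (Matrix.isUnit_iff_isUnit_det R).2 hR
  have h1 : X = R⁻¹ * Matrix.diagonal d * R := by
    rw [Matrix.mul_assoc, ← h, ← Matrix.mul_assoc, Matrix.nonsing_inv_mul _ hR, Matrix.one_mul]
  rw [h1, Matrix.exp_conj' R _ hu, ← Matrix.mul_assoc, ← Matrix.mul_assoc,
    Matrix.mul_nonsing_inv _ hR, Matrix.one_mul, Matrix.exp_diagonal]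
  congr 2
  funext p
  rw [Pi.coe_exp, Complex.exp_eq_exp_ℂ]

private theorem gX_inter (S : Finset (Fin r → ℤ)) (c t y : Fin r → ℂ) :
    D.Rm y * gX D S c t y = Matrix.diagonal (fun p => gA D S c t (D.yt p⁻¹ y)) * D.Rm y := by
  have hC : ∀ h : Fin r → ℂ, D.Rm y * D.C0 h y =
      Matrix.diagonal (fun p => ln h (D.yt p⁻¹ y)) * D.Rm y := fun h => RS.Rm_C0 h y
  unfold gX
  rw [Matrix.mul_add, Matrix.mul_add, hC, Matrix.mul_smul, hC, Finset.mul_sum]
  have h1 : ∀ k, D.Rm y * (gco k • ∑ a ∈ S, D.C0 (ca a) y ^ k) =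
      Matrix.diagonal (fun p => gco k * ∑ a ∈ S, ln (ca a) (D.yt p⁻¹ y) ^ k) * D.Rm y := by
    intro k
    rw [Matrix.mul_smul, Finset.mul_sum]
    ext p v
    rw [Matrix.smul_apply, Matrix.sum_apply, Matrix.diagonal_mul, smul_eq_mul, mul_assoc,
      Finset.sum_mul]
    congr 1
    refine Finset.sum_congr rfl fun a _ => ?_
    rw [inter_pow (hC (ca a)) k, Matrix.diagonal_mul]
  ext p v
  rw [Matrix.add_apply, Matrix.add_apply, Matrix.smul_apply, Matrix.sum_apply]
  simp only [h1, Matrix.diagonal_mul]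
  unfold gA
  rw [add_mul, add_mul, Finset.sum_mul, smul_eq_mul]
  ring

private theorem gA_diff (S : Finset (Fin r → ℤ)) (c t : Fin r → ℂ) : Differentiable ℂ (gA D S c t) := by
  unfold gA
  refine Differentiable.add ((ln_diff t).add ((ln_diff _).const_mul _)) ?_
  refine Differentiable.fun_sum fun k _ => Differentiable.const_mul ?_ _
  exact Differentiable.fun_sum fun a _ => (ln_diff _).pow k

private theorem gX_cont (S : Finset (Fin r → ℤ)) (c t : Fin r → ℂ) : Continuous (gX D S c t) := by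
  unfold gX
  refine ((C0_cont (D := D) t).add
    (Continuous.const_smul (C0_cont (D := D) c) (Real.pi * Complex.I : ℂ))).add ?_
  refine continuous_finsetSum _ fun k _ => ?_
  have h1 : Continuous fun y : Fin r → ℂ => ∑ a ∈ S, D.C0 (ca a) y ^ k :=
    continuous_finsetSum _ fun a _ => (C0_cont (D := D) _).pow k
  exact Continuous.const_smul h1 (gco k)

private theorem mop_gA (S : Finset (Fin r → ℤ)) (c t : Fin r → ℂ) :
    D.mop (D.ft fun x => Complex.exp (gA D S c t x)) 0 = NormedSpace.exp (gX D S c t 0) := by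
  refine mop_ext (A := fun y => NormedSpace.exp (gX D S c t y))
    (gh_ft (Eventually.of_forall fun x => ((gA_diff S c t).cexp) x)) ?_ ?_
  · intro u a
    let _ : NormedRing (Matrix D.W D.W ℂ) := Matrix.linftyOpNormedRing
    let _ : NormedAlgebra ℂ (Matrix D.W D.W ℂ) := Matrix.linftyOpNormedAlgebra
    let _ : NormedAlgebra ℚ (Matrix D.W D.W ℂ) := NormedAlgebra.restrictScalars ℚ ℂ _
    have h1 : Continuous fun y => NormedSpace.exp (gX D S c t y) :=
      NormedSpace.exp_continuous.comp (gX_cont S c t)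
    exact ((continuous_apply a).comp ((continuous_apply u).comp h1)).continuousAt
  · refine Eventually.of_forall fun y hy => ?_
    exact inter_exp (isUnit_iff_ne_zero.2 (RS.Rm_det_ne hy)) (gX_inter S c t y)

private theorem E0_pow_ne {c : (Fin r → ℤ) → ℂ} (k : ℕ) {u v : D.W} (h : (D.E0 c ^ k) u v ≠ 0) :
    D.len u = D.len v + k := by
  induction k generalizing u with
  | zero =>
    rw [pow_zero] at h
    by_cases huv : u = v
    · rw [huv]; rfl
    · exact absurd (Matrix.one_apply_ne huv) h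
  | succ k ih =>
    rw [pow_succ', Matrix.mul_apply] at h
    obtain ⟨w, -, hw⟩ := Finset.exists_ne_zero_of_sum_ne_zero h
    have h1 := E0_ne (left_ne_zero_of_mul hw)
    have h2 := ih (right_ne_zero_of_mul hw)
    omega

private theorem E0_nil (c : (Fin r → ℤ) → ℂ) : D.E0 c ^ (D.dm + 1) = 0 := by
  ext u v
  by_contra h
  have h1 := E0_pow_ne _ h
  have h2 := len_le_dm u
  omega

/-- `log Γ(1 - x)` -/
private noncomputable def lG (x : ℂ) : ℂ := Complex.log (Complex.Gamma (1 - x))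

private theorem gamma_near : ∀ᶠ x in 𝓝 (0 : ℂ), DifferentiableAt ℂ (fun x => Complex.Gamma (1 - x)) x ∧
    Complex.Gamma (1 - x) ∈ Complex.slitPlane := by
  have h0 : ∀ᶠ x in 𝓝 (0 : ℂ), DifferentiableAt ℂ (fun x => Complex.Gamma (1 - x)) x := by
    have h1 : ∀ᶠ x in 𝓝 (0 : ℂ), 0 < (1 - x).re := by
      have : ContinuousAt (fun x : ℂ => (1 - x).re) 0 := by fun_prop
      exact this.eventually (lt_mem_nhds (by simp))
    filter_upwards [h1] with x hx
    refine (Complex.differentiableAt_Gamma _ fun m h => ?_).comp x (by fun_prop)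
    rw [h] at hx
    simp only [Complex.neg_re, Complex.natCast_re] at hx
    have := m.cast_nonneg (α := ℝ)
    linarith
  refine h0.and ?_
  have h2 : ContinuousAt (fun x => Complex.Gamma (1 - x)) 0 := h0.self_of_nhds.continuousAt
  refine h2.eventually (Complex.isOpen_slitPlane.mem_nhds ?_)
  simp

private theorem lG_an : AnalyticAt ℂ lG 0 := by
  rw [Complex.analyticAt_iff_eventually_differentiableAt]
  filter_upwards [gamma_near] with x hx
  exact hx.1.clog hx.2

private theorem lG_taylor (m : ℕ) : ∃ q : ℂ → ℂ, AnalyticAt ℂ q 0 ∧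
    ∀ᶠ x in 𝓝 (0 : ℂ), lG x = (∑ k ∈ Finset.Icc 1 m, gco k * x ^ k) + x ^ (m + 1) * q x := by
  obtain ⟨q, hq, h⟩ := lG_an.exists_eventuallyEq_sum_add_pow_mul (m + 1)
  refine ⟨q, hq, ?_⟩
  filter_upwards [h] with x hx
  rw [hx, smul_eq_mul]
  congr 1
  rw [Finset.sum_range_succ']
  have h0 : iteratedDeriv 0 lG 0 = 0 := by
    rw [iteratedDeriv_zero]
    show Complex.log (Complex.Gamma (1 - 0)) = 0
    rw [sub_zero, Complex.Gamma_one, Complex.log_one]
  rw [h0, smul_zero, add_zero, Finset.range_eq_Ico, Finset.sum_Ico_add' (fun k => (x ^ k / (k.factorial : ℂ)) •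
    iteratedDeriv k lG 0) 0 m 1]
  have h1 : Finset.Ico (0 + 1) (m + 1) = Finset.Icc 1 m := by
    ext k
    simp only [Finset.mem_Ico, Finset.mem_Icc]
    omega
  rw [h1]
  refine Finset.sum_congr rfl fun k _ => ?_
  unfold gco
  rw [smul_eq_mul]
  show _ = iteratedDeriv k lG 0 / _ * _
  ring

private theorem pr_ln (a : Fin r → ℤ) (x : Fin r → ℂ) : pr a x = -ln (ca a) x := by
  unfold ln ca pr
  rw [neg_neg]

private theorem gop_aux (S : Finset (Fin r → ℤ)) (c t : Fin r → ℂ) {H : D.W → (Fin r → ℂ) → ℂ}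
    (hHg : D.GH H 0) (hH : H = D.ft fun x =>
      Complex.exp (ln t x + Real.pi * Complex.I * ln c x) *
        ∏ a ∈ S, Complex.Gamma (1 - ln (ca a) x)) :
    D.mop H 0 = NormedSpace.exp (D.E0 (D.ch t) +
    (Real.pi * Complex.I : ℂ) • D.E0 (D.ch c) +
    ∑ k ∈ Finset.Icc 1 D.dm, gco k • ∑ a ∈ S, D.E0 (D.ch (ca a)) ^ k) := by
  obtain ⟨q, hq, hT⟩ := lG_taylor D.dm
  have hl : ∀ h : Fin r → ℂ, Tendsto (ln h) (𝓝 0) (𝓝 0) := by
    intro h
    have := (ln_diff h).continuous.tendsto 0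
    rwa [ln_zero] at this
  have hq1 : ∀ᶠ x in 𝓝 (0 : ℂ), DifferentiableAt ℂ q x :=
    (Complex.analyticAt_iff_eventually_differentiableAt).1 hq
  set E1 : ℂ → ℂ := dslope Complex.exp 0 with hE1
  have hE1d : Differentiable ℂ E1 := by
    rw [← differentiableOn_univ, hE1,
      Complex.differentiableOn_dslope (Filter.univ_mem)]
    exact Complex.differentiable_exp.differentiableOn
  have hE1e : ∀ s, Complex.exp s = 1 + s * E1 s := by
    intro s
    have := sub_smul_dslope Complex.exp 0 s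
    rw [sub_zero, smul_eq_mul, Complex.exp_zero] at this
    rw [hE1, this]
    ring
  set B : (Fin r → ℂ) → ℂ := fun x => ∑ a ∈ S, ln (ca a) x ^ (D.dm + 1) * q (ln (ca a) x)
    with hB
  set K : (Fin r → ℤ) → (Fin r → ℂ) → ℂ := fun a x =>
    q (ln (ca a) x) * Complex.exp (gA D S c t x) * E1 (B x) with hK
  have hqd : ∀ a : Fin r → ℤ, ∀ᶠ x in 𝓝 (0 : Fin r → ℂ),
      DifferentiableAt ℂ (fun x => q (ln (ca a) x)) x := by
    intro a
    filter_upwards [(hl (ca a)).eventually hq1] with x hx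
    exact hx.comp x (ln_diff _ x)
  have hqd' : ∀ᶠ x in 𝓝 (0 : Fin r → ℂ), ∀ a ∈ S,
      DifferentiableAt ℂ (fun x => q (ln (ca a) x)) x :=
    (Filter.eventually_all_finset S).2 fun a _ => hqd a
  have hBd : ∀ᶠ x in 𝓝 (0 : Fin r → ℂ), DifferentiableAt ℂ B x := by
    filter_upwards [hqd'] with x hx
    rw [hB]
    refine DifferentiableAt.fun_sum fun a ha => ?_
    exact ((ln_diff _ x).pow _).mul (hx a ha)
  have hKd : ∀ a, ∀ᶠ x in 𝓝 (0 : Fin r → ℂ), DifferentiableAt ℂ (K a) x := by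
    intro a
    filter_upwards [hqd a, hBd] with x hx hBx
    exact (hx.mul ((gA_diff S c t).cexp x)).mul ((hE1d _).comp x hBx)
  have hmain : ∀ᶠ x in 𝓝 (0 : Fin r → ℂ),
      Complex.exp (ln t x + Real.pi * Complex.I * ln c x) *
        ∏ a ∈ S, Complex.Gamma (1 - ln (ca a) x) =
      Complex.exp (gA D S c t x) + ∑ a ∈ S, ln (ca a) x ^ (D.dm + 1) * K a x := by
    have h1 : ∀ᶠ x in 𝓝 (0 : Fin r → ℂ), ∀ a ∈ S,
        (lG (ln (ca a) x) = (∑ k ∈ Finset.Icc 1 D.dm, gco k * ln (ca a) x ^ k) +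
          ln (ca a) x ^ (D.dm + 1) * q (ln (ca a) x)) ∧
        Complex.Gamma (1 - ln (ca a) x) ∈ Complex.slitPlane :=
      (Filter.eventually_all_finset S).2 fun a _ =>
        ((hl (ca a)).eventually hT).and
          (((hl (ca a)).eventually gamma_near).mono fun x hx => hx.2)
    filter_upwards [h1] with x hx
    have h2 : ∏ a ∈ S, Complex.Gamma (1 - ln (ca a) x) =
        Complex.exp (∑ a ∈ S, lG (ln (ca a) x)) := by
      rw [Complex.exp_sum]
      refine Finset.prod_congr rfl fun a ha => ?_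
      exact (Complex.exp_log (Complex.slitPlane_ne_zero (hx a ha).2)).symm
    have h3 : ∑ a ∈ S, lG (ln (ca a) x) =
        (∑ k ∈ Finset.Icc 1 D.dm, gco k * ∑ a ∈ S, ln (ca a) x ^ k) + B x := by
      rw [Finset.sum_congr rfl fun a ha => (hx a ha).1, Finset.sum_add_distrib, Finset.sum_comm]
      congr 1
      exact Finset.sum_congr rfl fun k _ => (Finset.mul_sum _ _ _).symm
    rw [h2, h3, ← Complex.exp_add, ← add_assoc]
    show Complex.exp (gA D S c t x + B x) = _
    rw [Complex.exp_add, hE1e (B x), mul_add, mul_one]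
    congr 1
    have h4 : Complex.exp (gA D S c t x) * (B x * E1 (B x)) =
        B x * (Complex.exp (gA D S c t x) * E1 (B x)) := by ring
    rw [h4]
    conv_lhs => rw [hB]
    simp only []
    rw [Finset.sum_mul]
    refine Finset.sum_congr rfl fun a _ => ?_
    rw [hK]
    ring
  have hKg : ∀ a, D.GH (fun p y => D.ft (ln (ca a)) p y ^ (D.dm + 1) * D.ft (K a) p y) 0 := by
    intro a
    have h1 := gh_ft (D := D) (F := fun x => ln (ca a) x ^ (D.dm + 1) * K a x) (by
      filter_upwards [hKd a] with x hx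
      exact ((ln_diff _ x).pow _).mul hx)
    exact h1
  have hzero : ∀ a, D.mop (fun p y => D.ft (ln (ca a)) p y ^ (D.dm + 1) * D.ft (K a) p y) 0 = 0 := by
    intro a
    have hg1 : D.GH (D.ft (ln (ca a))) 0 := gh_ft (Eventually.of_forall (ln_diff _))
    have hg2 : D.GH (fun p y => D.ft (ln (ca a)) p y ^ (D.dm + 1)) 0 :=
      gh_ft (F := fun x => ln (ca a) x ^ (D.dm + 1)) (Eventually.of_forall ((ln_diff _).pow _))
    rw [mop_mul hg2 (gh_ft (hKd a)), mop_pow hg1]
    have h1 : D.mop (D.ft (ln (ca a))) 0 = D.E0 (D.ch (ca a)) := mop_lin (ca a)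
    rw [h1, E0_nil, Matrix.zero_mul]
  have hexp : D.GH (D.ft fun x => Complex.exp (gA D S c t x)) 0 :=
    gh_ft (Eventually.of_forall fun x => ((gA_diff S c t).cexp) x)
  have h5 : D.mop H 0 = D.mop (fun p y => D.ft (fun x => Complex.exp (gA D S c t x)) p y +
      ∑ a ∈ S, D.ft (ln (ca a)) p y ^ (D.dm + 1) * D.ft (K a) p y) 0 := by
    refine mop_congr hHg ?_ ?_
    · have h6 := gh_sum (D := D) (Finset.univ : Finset Bool) (y₀ := 0)
        (H := fun i => if i then D.ft (fun x => Complex.exp (gA D S c t x)) else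
          fun p y => ∑ a ∈ S, D.ft (ln (ca a)) p y ^ (D.dm + 1) * D.ft (K a) p y) (by
          intro i _
          cases i
          · exact gh_sum _ fun a _ => hKg a
          · exact hexp)
      simpa using h6
    · rw [hH]
      have h7 : ∀ p : D.W, Tendsto (fun y => D.yt p⁻¹ y) (𝓝 (0 : Fin r → ℂ)) (𝓝 0) := by
        intro p
        have := (yt_diffG (D := D) p⁻¹).continuous.tendsto 0
        rwa [D.yt_zero] at this
      refine eventually_all.2 fun p => ?_
      filter_upwards [(h7 p).eventually hmain] with y hy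
      exact hy
  rw [h5, mop_add hexp (gh_sum _ fun a _ => hKg a), mop_sum _ fun a _ => hKg a,
    Finset.sum_eq_zero fun a _ => hzero a, add_zero, mop_gA]
  congr 1
  unfold gX
  simp only [C0_zero]


private theorem gg_ft (t : Fin r → ℂ) : P.gg t = P.D.ft fun x =>
    Complex.exp (ln t x + Real.pi * Complex.I * ln P.ctr x) *
      ∏ a ∈ P.Pos, Complex.Gamma (1 - ln (ca a) x) := by
  funext p y
  unfold gg ft
  show Complex.exp (-P.D.hv t p y - Real.pi * Complex.I * pr (P.D.rt p P.tr) y) * _ =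
    Complex.exp (ln t (P.D.yt p⁻¹ y) + Real.pi * Complex.I * ln P.ctr (P.D.yt p⁻¹ y)) *
      ∏ a ∈ P.Pos, Complex.Gamma (1 - ln (ca a) (P.D.yt p⁻¹ y))
  have h1 : pr (P.D.rt p P.tr) y = -ln P.ctr (P.D.yt p⁻¹ y) := by
    rw [P.D.pr_rt, pr_ln]
    rfl
  have h2 : -P.D.hv t p y = ln t (P.D.yt p⁻¹ y) := rfl
  have h3 : ∀ a, Complex.Gamma (1 + pr (P.D.rt p a) y) =
      Complex.Gamma (1 - ln (ca a) (P.D.yt p⁻¹ y)) := by
    intro a
    rw [P.D.pr_rt, pr_ln, ← sub_eq_add_neg]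
  rw [h1, h2, Finset.prod_congr rfl fun a _ => h3 a, mul_neg, sub_neg_eq_add]

private theorem gm_ga_zero : ∀ a ∈ P.D.Φ, ∀ n : ℤ, n ≠ 0 → pr a (0 : Fin r → ℂ) ≠ n := by
  intro a _ n hn h
  rw [pr_zero_right] at h
  exact hn (by exact_mod_cast h.symm)

theorem Gop_exp (t : Fin r → ℂ) : P.D.mop (P.gg t) 0 = P.GE t :=
  gop_aux P.Pos P.ctr t (gh_gg t gm_ga_zero) (gg_ft t)

theorem GE_comm (t h : Fin r → ℂ) : P.GE t * P.D.E0 (P.D.ch h) = P.D.E0 (P.D.ch h) * P.GE t := by
  have h1 := mop_comm (D := P.D) (gh_gg t gm_ga_zero) h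
  rw [C0_zero, Gop_exp] at h1
  exact h1

private theorem gm_mop_out {H : P.D.W → (Fin r → ℂ) → ℂ} (hr : ∀ y, P.RI fun p => H p y)
    (hH : P.D.GH H 0) {v : P.D.W} (hv : ¬ ∀ j ∈ P.J, P.D.rt v (al j) ∈ P.D.Pos) (u : P.X) :
    P.D.mop H 0 v u.1 = 0 := by
  show P.D.cls (fun p y => H p y * P.D.Rm y p u.1) 0 v = 0
  refine cls_out (fun y p w hw => ?_) (gh_mul hH (gh_Rm u.1 0)) hv
  show H (p * w) y * P.D.Rm y (p * w) u.1 = H p y * P.D.Rm y p u.1
  have h1 : H (p * w) y = H p y := hr y p w hw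
  rw [Rm_right y p hw u, h1]

theorem E0_out {h : Fin r → ℂ} (hh : P.Inv h) {v : P.D.W}
    (hv : ¬ ∀ j ∈ P.J, P.D.rt v (al j) ∈ P.D.Pos) (u : P.X) : P.D.E0 (P.D.ch h) v u.1 = 0 := by
  rw [← mop_lin]
  refine gm_mop_out (fun y p w hw => ?_)
    (gh_ft (Eventually.of_forall (lin_diff h))) hv u
  show -P.D.hv h (p * w) y = -P.D.hv h p y
  rw [hv_inv hh p hw]

/-- sums over `P.X` -/
private theorem gm_sum {M : Type*} [AddCommMonoid M] (f : P.D.W → M)
    (h : ∀ v : P.D.W, (¬ ∀ j ∈ P.J, P.D.rt v (al j) ∈ P.D.Pos) → f v = 0) :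
    ∑ v : P.D.W, f v = ∑ v : P.X, f v.1 := by
  symm
  refine Fintype.sum_of_injective (fun v : P.X => v.1) (fun a b hab => Subtype.ext hab)
    (fun v : P.X => f v.1) f ?_ (fun i => rfl)
  intro v hv
  apply h
  intro hcon
  exact hv ⟨⟨v, hcon⟩, rfl⟩

theorem E0_blk {h : Fin r → ℂ} (hh : P.Inv h) (v u : P.X) :
    P.D.E0 (P.D.ch h) v.1 u.1 = P.E0 (P.D.ch h) v u := by
  classical
  show ∑ a ∈ P.D.Pos, (if v.1 = u.1 * P.D.refl a ∧ P.D.len v.1 = P.D.len u.1 + 1 then
      P.D.ch h a else 0) =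
    ∑ a ∈ P.Pos, (if v = P.fl (u.1 * P.D.refl a) ∧ P.len v.1 = P.len u.1 + 1 then
      P.D.ch h a else 0)
  have hsub : P.Pos ⊆ P.D.Pos := Finset.filter_subset _ _
  rw [← Finset.sum_subset hsub]
  · refine Finset.sum_congr rfl fun a ha => ?_
    have hiff : (v.1 = u.1 * P.D.refl a ∧ P.D.len v.1 = P.D.len u.1 + 1) ↔
        (v = P.fl (u.1 * P.D.refl a) ∧ P.len v.1 = P.len u.1 + 1) := by
      rw [← len_val v, ← len_val u]
      constructor
      · rintro ⟨h1, h2⟩
        exact ⟨by rw [← h1, fl_val], h2⟩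
      · rintro ⟨h1, h2⟩
        have h3 : P.len (u.1 * P.D.refl a) = P.len u.1 + 1 := by
          rw [← h2, h1, len_fl]
        have h4 := mem_X_of_len u ha h3
        have h5 : P.fl (u.1 * P.D.refl a) = (⟨u.1 * P.D.refl a, h4⟩ : P.X) :=
          fl_val (⟨u.1 * P.D.refl a, h4⟩ : P.X)
        refine ⟨?_, h2⟩
        rw [h1, h5]
    by_cases hc : v.1 = u.1 * P.D.refl a ∧ P.D.len v.1 = P.D.len u.1 + 1
    · rw [if_pos hc, if_pos (hiff.mp hc)]
    · rw [if_neg hc, if_neg fun hc' => hc (hiff.mpr hc')]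
  · intro a ha ha'
    have h1 : P.Levi a := by
      by_contra hcon
      exact ha' (mem_Pos.mpr ⟨ha, hcon⟩)
    rw [(lab_ch hh).levi h1, ite_self]

theorem GE_out {t : Fin r → ℂ} (ht : P.Inv t) {v : P.D.W}
    (hv : ¬ ∀ j ∈ P.J, P.D.rt v (al j) ∈ P.D.Pos) (u : P.X) : P.GE t v u.1 = 0 := by
  rw [← Gop_exp]
  exact gm_mop_out (fun y => ri_gg ht y) (gh_gg t gm_ga_zero) hv u

/-- the operator on `H^*(G/P)` -/
noncomputable def GEX (P : Par r) (t : Fin r → ℂ) : Matrix P.X P.X ℂ :=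
  Matrix.of fun v u => P.GE t v.1 u.1

theorem GEX_comm {t h : Fin r → ℂ} (ht : P.Inv t) (hh : P.Inv h) :
    P.GEX t * P.E0 (P.D.ch h) = P.E0 (P.D.ch h) * P.GEX t := by
  ext v u
  have h1 := congrFun (congrFun (GE_comm (P := P) t h) v.1) u.1
  rw [Matrix.mul_apply, Matrix.mul_apply,
    gm_sum _ (fun w hw => by rw [E0_out hh hw u, mul_zero]),
    gm_sum _ (fun w hw => by rw [GE_out ht hw u, mul_zero])] at h1
  rw [Matrix.mul_apply, Matrix.mul_apply]
  refine Eq.trans (Finset.sum_congr rfl fun w _ => ?_)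
    (h1.trans (Finset.sum_congr rfl fun w _ => ?_))
  · rw [E0_blk hh w u]
    rfl
  · rw [E0_blk hh v w]
    rfl

theorem GEX_det {t : Fin r → ℂ} (ht : P.Inv t) : (P.GEX t).det ≠ 0 := by
  classical
  intro hdet
  obtain ⟨x, hx, hGx⟩ := Matrix.exists_mulVec_eq_zero_iff.mpr hdet
  apply hx
  let x' : P.D.W → ℂ := fun v =>
    if hv : ∀ j ∈ P.J, P.D.rt v (al j) ∈ P.D.Pos then x ⟨v, hv⟩ else 0
  have hx'1 : ∀ v : P.X, x' v.1 = x v := by
    intro v
    show (if hv : ∀ j ∈ P.J, P.D.rt v.1 (al j) ∈ P.D.Pos then x ⟨v.1, hv⟩ else 0) = x v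
    rw [dif_pos v.2]
    rfl
  have hx'2 : ∀ v : P.D.W, (¬ ∀ j ∈ P.J, P.D.rt v (al j) ∈ P.D.Pos) → x' v = 0 := by
    intro v hv
    exact dif_neg hv
  have h1 : (P.GE t).mulVec x' = 0 := by
    funext w
    show ∑ v, P.GE t w v * x' v = 0
    rw [gm_sum _ (fun v hv => by rw [hx'2 v hv, mul_zero])]
    by_cases hw : ∀ j ∈ P.J, P.D.rt w (al j) ∈ P.D.Pos
    · have h2 := congrFun hGx (⟨w, hw⟩ : P.X)
      refine Eq.trans (Finset.sum_congr rfl fun v _ => ?_) h2
      rw [hx'1 v]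
      rfl
    · refine Finset.sum_eq_zero fun v _ => ?_
      rw [GE_out ht hw v, zero_mul]
  have hu : IsUnit (P.GE t) := Matrix.isUnit_exp _
  have hd : (P.GE t).det ≠ 0 := ((Matrix.isUnit_iff_isUnit_det _).mp hu).ne_zero
  have h2 : x' = 0 := by
    by_contra hcon
    exact hd (Matrix.exists_mulVec_eq_zero_iff.mp ⟨x', hcon, h1⟩)
  funext v
  rw [← hx'1 v, h2]
  rfl

theorem GM_zero {t : Fin r → ℂ} (ht : P.Inv t) (u i : P.X) : P.GM t 0 u i =
    ∑ v : P.X, P.GEX t u v * P.D.cls (fun p y => evK y (P.Bk i p)) 0 v.1 := by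
  have hg : P.D.GH (fun p y => evK y (P.Bk i p)) 0 := gh_evK (isB_Bk i).isB.gkm 0
  have h1 := congrFun (cls_mul (D := P.D) (gh_gg t gm_ga_zero) hg) u.1
  rw [Gop_exp] at h1
  show P.D.cls (fun p y => P.gg t p y * evK y (P.Bk i p)) 0 u.1 = _
  rw [h1]
  show ∑ v, P.GE t u.1 v * P.D.cls (fun p y => evK y (P.Bk i p)) 0 v = _
  rw [gm_sum _ (fun v hv => ?_)]
  · rfl
  · rw [cls_out (H := fun p y => evK y (P.Bk i p)) (fun y p w hw => ?_) hg hv, mul_zero]
    show evK y (P.Bk i (p * w)) = evK y (P.Bk i p)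
    rw [(isB_Bk i).ri p w hw]

end Pool.Agent.FLG.Par
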