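import Pool.Agent.FLG.P.Defs
import Pool.Agent.FLG.Z.Ev
import Pool.Agent.FLG.Z.Gam

/-!
# FLG-PK-Defs: equivariant K-theory of `G/P` (definitions)

A class in `K_T(G/P)` is a family `f : P.D.W → RH r` with the conditions `GKM` which is right invariant under
the Levi Weyl group (`P.RI f`); everything is a part of the K-theory of `G/B`.
-/

set_option autoImplicit false

open scoped BigOperators Topology
open Filter
open Pool.Agent.DST.TE Pool.Agent.DSTJ.Spec

namespace Pool.Agent.FLG.Par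

open RS

variable {r : ℕ} (P : Par r)

/-- right invariance under the Levi Weyl group -/
def RI {α : Type*} (f : P.D.W → α) : Prop := ∀ p, ∀ w ∈ P.WJ, f (p * w) = f p

/-- the positive roots of the Levi subgroup -/
def LPos : Finset (Fin r → ℤ) := P.D.Pos.filter fun a => ∀ i, i ∉ P.J → a i = 0

open Classical in
/-- the elements of the Levi Weyl group -/
noncomputable def WF : Finset P.D.W := Finset.univ.filter fun w => w ∈ P.WJ

/-- `F` is a multiplicity function on the weights `μ + κ`, invariant under the Levi Weyl group: `F κ` is the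
multiplicity of `μ + κ`. -/
def IsMult (μ : Fin r → ℂ) (F : RH r) : Prop :=
  P.D.IsWt μ ∧ ∀ w ∈ P.WJ, chr (P.D.dl μ w) * P.D.wK w F = F

/-- The restrictions `∑_κ F(κ) e^{μ - p(μ + κ)}` of the homogeneous bundle with the weights `μ + κ` with
multiplicity `F κ`. -/
noncomputable def VB (μ : Fin r → ℂ) (F : RH r) (p : P.D.W) : RH r := P.D.LB μ p * P.D.wK p (sK F)

/-- `f` is a combination of homogeneous bundles on `G/P` with coefficients in the representation ring -/
def LinJ (f : P.D.W → RH r) : Prop :=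
  ∃ (n : ℕ) (μ : Fin n → Fin r → ℂ) (F a : Fin n → RH r), (∀ k, P.IsMult (μ k) (F k)) ∧
    ∀ p, f p = ∑ k, a k * P.VB (μ k) (F k) p

/-- the class of the fixed point `w₀ W_J` -/
noncomputable def Bpt (p : P.D.W) : RH r :=
  if P.fl p = P.fl P.D.w0 then ∏ b ∈ P.D.Inv (P.fl P.D.w0).1, (1 - chr b) else 0

/-- `f` is the class of the closure of the cell `{p ≥ w}` -/
structure IsB (w : P.X) (f : P.D.W → RH r) : Prop where
  isB : P.D.IsB w.1 f
  ri : P.RI f
  lin : P.LinJ f

/-- localisation sum at a point `y` in general position -/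
noncomputable def KSum (f : P.D.W → RH r) (y : Fin r → ℂ) : ℂ :=
  ∑ p : P.X, evK y (f p.1) /
    ∏ a ∈ P.Pos, (1 - Complex.exp (2 * Real.pi * Complex.I * pr (P.D.rt p.1 a) y))

/-- `F` is the equivariant Euler characteristic of `f` on `G/P` -/
def IsChi (f : P.D.W → RH r) (F : RH r) : Prop :=
  ∀ y : Fin r → ℂ, (∀ a ∈ P.D.Φ, ∀ n : ℤ, pr a y ≠ n) → evK y F = P.KSum f y

/-- restrictions of `e^{t + πi c_1} Γ̂` -/
noncomputable def gg (t : Fin r → ℂ) (p : P.D.W) (y : Fin r → ℂ) : ℂ :=
  Complex.exp (-P.D.hv t p y - Real.pi * Complex.I * pr (P.D.rt p P.tr) y) *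
    ∏ a ∈ P.Pos, Complex.Gamma (1 + pr (P.D.rt p a) y)

/-- `e^{t + πi c_1} Γ̂` as an operator on `H^*(G/B)` -/
noncomputable def GE (t : Fin r → ℂ) : Matrix P.D.W P.D.W ℂ :=
  NormedSpace.exp (P.D.E0 (P.D.ch t) + (Real.pi * Complex.I : ℂ) • P.D.E0 (P.D.ch P.ctr) +
    ∑ k ∈ Finset.Icc 1 P.D.dm, gco k • ∑ a ∈ P.Pos, P.D.E0 (P.D.ch (ca a)) ^ k)

/-- an integral combination of weights which is invariant under the Levi Weyl group, that is, an element of the
representation ring of the parabolic subgroup; `ca (P.D.dl h w) = w h - h` -/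
def InvK (x : P.D.KB) : Prop := ∀ w ∈ P.WJ, ∀ h k : {h : Fin r → ℂ // P.D.IsWt h},
  k.1 = h.1 + ca (P.D.dl h.1 w) → x k = x h

end Pool.Agent.FLG.Par
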