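import Pool.Agent.FLG.PK.Pt
import Pool.Agent.FLG.P.Pair

/-!
# FLG-PK-Exi: existence of the basis of `K_T(G/P)`

By downward induction on the length, with the Demazure operators (`exists_step`).
-/

set_option autoImplicit false

open scoped BigOperators Topology
open Filter
open Pool.Agent.DST.TE Pool.Agent.DSTJ.Spec

namespace Pool.Agent.FLG.Par

open RS

variable {r : ℕ} {P : Par r}

private theorem ex_pos {w : P.X} (h : w ≠ P.fl P.D.w0) : ∃ a ∈ P.Pos, P.D.rt w.1 a ∈ P.D.Pos := by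
  by_contra hc
  push Not at hc
  apply h
  have h1 : P.len w.1 = P.dm := by
    unfold len dm
    rw [Finset.filter_true_of_mem hc]
  have h2 := len_w0 (P := P) w.1
  have h3 : P.D.len (P.fl (P.D.w0 * w.1)).1 = 0 := by
    rw [← len_val, len_fl]
    omega
  have h4 : P.lm P.D.w0 w = P.one := Subtype.ext (eq_one_of_len h3)
  have h5 := lm_w0_w0 w
  rw [h4] at h5
  rw [← h5]
  show P.fl (P.D.w0 * 1) = P.fl P.D.w0
  rw [mul_one]

private theorem ex_coord {w : P.X} (hc : ∀ i, ¬ (P.D.len w.1 < P.D.len (P.D.s i * w.1) ∧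
    ∀ j ∈ P.J, P.D.rt (P.D.s i * w.1) (al j) ∈ P.D.Pos)) (i m : Fin r) (hm : m ∉ P.J) :
    P.D.rt w.1⁻¹ (al i) m ≤ 0 := by
  by_cases h1 : P.D.rt w.1⁻¹ (al i) ∈ P.D.Pos
  · have h2 := len_s_mul_of_pos i w.1 h1
    have h3 : ∃ j ∈ P.J, P.D.rt (P.D.s i * w.1) (al j) ∉ P.D.Pos := by
      by_contra h4
      push Not at h4
      exact hc i ⟨by omega, h4⟩
    obtain ⟨j, hj, hj2⟩ := h3
    have h5 : P.D.rt w.1 (al j) = al i := by
      by_contra h6
      apply hj2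
      rw [P.D.rt_mul]
      exact (s_perm i (w.2 j hj) h6).1
    rw [← h5, P.D.rt_inv_rt]
    have h7 : m ≠ j := by
      rintro rfl
      exact hm hj
    unfold al
    rw [Pi.single_eq_of_ne h7]
  · have h2 := (not_pos_iff (P.D.rt_mem.2 (P.D.al_mem i))).1 h1
    have h3 := (RS.mem_Pos.1 h2).2 m
    rw [Pi.neg_apply] at h3
    omega

theorem exists_step {w : P.X} (h : w ≠ P.fl P.D.w0) : ∃ i, P.D.len w.1 < P.D.len (P.D.s i * w.1) ∧
    ∀ j ∈ P.J, P.D.rt (P.D.s i * w.1) (al j) ∈ P.D.Pos := by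
  by_contra hc
  push Not at hc
  have hc' : ∀ i, ¬ (P.D.len w.1 < P.D.len (P.D.s i * w.1) ∧
      ∀ j ∈ P.J, P.D.rt (P.D.s i * w.1) (al j) ∈ P.D.Pos) := by
    rintro i ⟨h1, h2⟩
    obtain ⟨j, hj, hj2⟩ := hc i h1
    exact hj2 (h2 j hj)
  obtain ⟨a, ha, hwa⟩ := ex_pos h
  obtain ⟨ha1, m, hm, ham⟩ := Finset.mem_filter.1 ha
  have ha0 := (RS.mem_Pos.1 ha1).2 m
  have h1 : a = ∑ i, P.D.rt w.1 a i • P.D.rt w.1⁻¹ (al i) := by
    have h2 := congrArg (P.D.rt w.1⁻¹) (eq_sum_al (P.D.rt w.1 a))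
    rw [P.D.rt_inv_rt, P.D.rt_sum] at h2
    refine h2.trans (Finset.sum_congr rfl fun i _ => ?_)
    rw [P.D.rt_smul]
  have h3 : a m ≤ 0 := by
    rw [congrFun h1 m, Finset.sum_apply]
    refine Finset.sum_nonpos fun i _ => ?_
    rw [Pi.smul_apply, smul_eq_mul]
    exact mul_nonpos_of_nonneg_of_nonpos ((RS.mem_Pos.1 hwa).2 i) (ex_coord hc' i m hm)
  exact ham (le_antisymm h3 ha0)

theorem exists_isB (w : P.X) : ∃ f, P.IsB w f := by
  have main : ∀ n : ℕ, ∀ w : P.X, P.D.dm - P.D.len w.1 = n → ∃ f, P.IsB w f := by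
    intro n
    induction n using Nat.strong_induction_on with
    | _ n ih =>
      intro w hw
      by_cases h : w = P.fl P.D.w0
      · rw [h]
        exact ⟨P.Bpt, isB_pt P⟩
      · obtain ⟨i, hi, hi2⟩ := exists_step h
        have hle : P.D.len (P.D.s i * w.1) ≤ P.D.dm := Finset.card_le_card (Finset.filter_subset _ _)
        obtain ⟨f, hf⟩ := ih (P.D.dm - P.D.len (P.D.s i * w.1)) (by omega) ⟨P.D.s i * w.1, hi2⟩ rfl
        obtain ⟨g, hg⟩ := dem_exists hf.isB.gkm i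
        exact ⟨g, ⟨isB_dem hi hf.isB hg, ri_dem hf.ri hg, linJ_dem hf.lin hg⟩⟩
  exact main _ w rfl

/-- the basis of `K_T(G/P)` -/
noncomputable def Bk (P : Par r) (w : P.X) (p : P.D.W) : RH r := (exists_isB w).choose p

theorem isB_Bk (w : P.X) : P.IsB w (P.Bk w) := (exists_isB w).choose_spec

end Pool.Agent.FLG.Par
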