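import Pool.Agent.FLG.PK.DenJ
import Pool.Agent.FLG.PK.Exi
import Pool.Agent.FLG.P.Num

/-!
# FLG-PK-Chi: the Euler characteristic of `G/P` is the one of `G/B`

`ksum_eq`: sum over the cosets (`sum_W`), the sum over the Levi Weyl group is `1` (`den_eqJ`, `denomJ`).
-/

set_option autoImplicit false

open scoped BigOperators Topology
open Filter
open Pool.Agent.DST.TE Pool.Agent.DSTJ.Spec

namespace Pool.Agent.FLG.Par

open RS

variable {r : ℕ} {P : Par r}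

private theorem ch_exp_ne {z : ℂ} (hz : ∀ n : ℤ, z ≠ n) :
    (1 : ℂ) - Complex.exp (2 * Real.pi * Complex.I * z) ≠ 0 := by
  intro h
  have h1 : Complex.exp (2 * Real.pi * Complex.I * z) = 1 := (sub_eq_zero.1 h).symm
  obtain ⟨n, hn⟩ := Complex.exp_eq_one_iff.1 h1
  have h2 : (2 * Real.pi * Complex.I : ℂ) ≠ 0 := Complex.two_pi_I_ne_zero
  have h3 : (2 * Real.pi * Complex.I : ℂ) * z = (2 * Real.pi * Complex.I : ℂ) * n := by
    rw [hn]
    ring
  exact hz n (mul_left_cancel₀ h2 h3)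

/-- the sum over the Levi Weyl group -/
private theorem ch_levi {y : Fin r → ℂ} (hy : ∀ a ∈ P.D.Φ, ∀ n : ℤ, pr a y ≠ n) :
    ∑ w ∈ P.WF, 1 / ∏ a ∈ P.LPos, (1 - Complex.exp (2 * Real.pi * Complex.I * pr (P.D.rt w a) y)) = 1 := by
  have hΔ : evK y (∏ b ∈ P.LPos, (1 - chr b) : RH r) ≠ 0 := by
    rw [map_prod, Finset.prod_ne_zero_iff]
    intro b hb
    rw [map_sub, map_one, evK_chr]
    exact ch_exp_ne (hy b (mem_of_pos (mem_LPos.1 hb).1))
  have h1 : ∀ w ∈ P.WF, 1 / ∏ a ∈ P.LPos, (1 - Complex.exp (2 * Real.pi * Complex.I * pr (P.D.rt w a) y)) =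
      evK y ((-1) ^ P.D.len w * chr (P.D.kap w)) / evK y (∏ b ∈ P.LPos, (1 - chr b) : RH r) := by
    intro w hw
    have h2 := congrArg (evK y) (den_eqJ (mem_WF.1 hw))
    have h3 : ∏ a ∈ P.LPos, (1 - Complex.exp (2 * Real.pi * Complex.I * pr (P.D.rt w a) y)) =
        evK y (∏ a ∈ P.LPos, (1 - chr (P.D.rt w a)) : RH r) := by
      rw [map_prod]
      refine Finset.prod_congr rfl fun a _ => ?_
      rw [map_sub, map_one, evK_chr]
    rw [map_mul] at h2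
    rw [h3, ← h2]
    rw [← h2] at hΔ
    rw [div_mul_cancel_left₀ (left_ne_zero_of_mul hΔ), one_div]
  rw [Finset.sum_congr rfl h1, ← Finset.sum_div, ← map_sum, ← denomJ]
  exact div_self hΔ

theorem ksum_eq {f : P.D.W → RH r} (hf : P.RI f) {y : Fin r → ℂ}
    (hy : ∀ a ∈ P.D.Φ, ∀ n : ℤ, pr a y ≠ n) : P.D.KSum f y = P.KSum f y := by
  unfold RS.KSum KSum
  rw [sum_W]
  refine Finset.sum_congr rfl fun p _ => ?_
  have hy' : ∀ a ∈ P.D.Φ, ∀ n : ℤ, pr a (P.D.yt p.1⁻¹ y) ≠ n := by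
    intro a ha n
    rw [← pr_rt]
    exact hy _ (P.D.rt_mem.2 ha) n
  have h1 : ∀ w ∈ P.WF, evK y (f (p.1 * w)) /
      ∏ a ∈ P.D.Pos, (1 - Complex.exp (2 * Real.pi * Complex.I * pr (P.D.rt (p.1 * w) a) y)) =
      (evK y (f p.1) / ∏ a ∈ P.Pos, (1 - Complex.exp (2 * Real.pi * Complex.I * pr (P.D.rt p.1 a) y))) *
        (1 / ∏ a ∈ P.LPos, (1 - Complex.exp (2 * Real.pi * Complex.I * pr (P.D.rt w a) (P.D.yt p.1⁻¹ y)))) := by
    intro w hw
    have hw' := mem_WF.1 hw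
    have h2 := prod_Pos hw' (fun a => 1 - Complex.exp (2 * Real.pi * Complex.I * pr (P.D.rt p.1 a) y))
    have h3 : ∏ a ∈ P.Pos, (1 - Complex.exp (2 * Real.pi * Complex.I * pr (P.D.rt (p.1 * w) a) y)) =
        ∏ a ∈ P.Pos, (1 - Complex.exp (2 * Real.pi * Complex.I * pr (P.D.rt p.1 a) y)) := by
      rw [← h2]
      exact Finset.prod_congr rfl fun a _ => by rw [P.D.rt_mul]
    have h4 : ∏ a ∈ P.LPos, (1 - Complex.exp (2 * Real.pi * Complex.I * pr (P.D.rt (p.1 * w) a) y)) =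
        ∏ a ∈ P.LPos, (1 - Complex.exp (2 * Real.pi * Complex.I * pr (P.D.rt w a) (P.D.yt p.1⁻¹ y))) :=
      Finset.prod_congr rfl fun a _ => by rw [P.D.rt_mul, pr_rt P.D p.1]
    rw [hf p.1 w hw', prod_split, h3, h4, div_mul_div_comm, mul_one]
  rw [Finset.sum_congr rfl h1, ← Finset.mul_sum, ch_levi hy', mul_one]

theorem isChi_of {f : P.D.W → RH r} (hf : P.RI f) {F : RH r} (h : P.D.IsChi f F) :
    P.IsChi f F := by
  intro y hy
  rw [h y hy, ksum_eq hf hy]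

theorem gkm_pair (i j : P.X) : P.D.GKM fun p => sK (P.Bk i p) * P.Bk j p :=
  gkm_mul (gkm_sK (isB_Bk i).isB.gkm) (isB_Bk j).isB.gkm

/-- the equivariant Euler pairing of the basis -/
noncomputable def chiM (P : Par r) (i j : P.X) : RH r := (exists_chi (gkm_pair i j)).choose

theorem isChiD_chiM (i j : P.X) :
    P.D.IsChi (fun p => sK (P.Bk i p) * P.Bk j p) (P.chiM i j) :=
  (exists_chi (gkm_pair i j)).choose_spec

theorem isChi_chiM (i j : P.X) : P.IsChi (fun p => sK (P.Bk i p) * P.Bk j p) (P.chiM i j) := by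
  refine isChi_of ?_ (isChiD_chiM i j)
  intro p w hw
  show sK (P.Bk i (p * w)) * P.Bk j (p * w) = sK (P.Bk i p) * P.Bk j p
  rw [(isB_Bk i).ri p w hw, (isB_Bk j).ri p w hw]

theorem Bk_tri {N : ℕ} (n : P.Num N) {i p : Fin N} (h : p < i) :
    P.Bk (n.e i) (n.e p).1 = 0 := by
  by_contra hne
  have h1 := (isB_Bk (n.e i)).isB.supp _ hne
  have h2 : n.e i ≠ n.e p := fun h' => h.ne (n.e.injective h').symm
  have h3 := bru_strict h1 h2 n.ξ_pos
  have h4 := n.mono h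
  simp only at h4
  omega

end Pool.Agent.FLG.Par
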