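import Pool.Agent.FLG.PK.Push
import Pool.Agent.FLG.K.Den

/-!
# FLG-PK-DenJ: the denominator formula for the Levi subgroup

As `denom` in K/Den.lean, with `exists_push` for `h = 0`.
-/

set_option autoImplicit false

open scoped BigOperators Topology
open Filter
open Pool.Agent.DST.TE Pool.Agent.DSTJ.Spec

namespace Pool.Agent.FLG.Par

open RS

variable {r : ℕ} {P : Par r}

private theorem dj_wt (P : Par r) : P.D.IsWt 0 := fun i => ⟨0, by
  unfold RS.ch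
  rw [Int.cast_zero]
  exact Finset.sum_eq_zero fun j _ => by rw [Pi.zero_apply, zero_mul]⟩

private theorem dj_hv (w : P.D.W) (y : Fin r → ℂ) : P.D.hv 0 w y = 0 := by
  unfold RS.hv
  exact Finset.sum_eq_zero fun j _ => by rw [Pi.zero_apply, zero_mul]

private theorem dj_LB (w : P.D.W) : P.D.LB 0 w = 1 := by
  unfold RS.LB
  have h1 : P.D.dl 0 w = 0 := dl_unique (dj_wt P) fun y => by
    rw [dj_hv, dj_hv, pr_zero_left, add_zero]
  rw [h1, neg_zero, chr_zero]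

private theorem dj_pos_nonneg {D : RS r} {b : Fin r → ℤ} (hb : b ∈ D.Pos) : 0 ≤ b :=
  fun i => (RS.mem_Pos.1 hb).2 i

private theorem dj_bd {w : P.D.W} (hw : w ∈ P.WJ) :
    0 ≤ P.D.kap w ∧ P.D.kap w ≤ ∑ b ∈ P.LPos, b := by
  constructor
  · exact Finset.sum_nonneg fun b hb => dj_pos_nonneg (mem_LPos.1 (inv_sub hw hb)).1
  · exact Finset.sum_le_sum_of_subset_of_nonneg (inv_sub hw) fun b hb _ =>
      dj_pos_nonneg (mem_LPos.1 hb).1

private theorem dj_inv {w : P.D.W} (hw : w ∈ P.WJ) (h : P.D.kap w = ∑ b ∈ P.LPos, b) :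
    P.D.Inv w = P.LPos := by
  have h1 : P.LPos \ P.D.Inv w = ∅ := by
    rw [Finset.eq_empty_iff_forall_notMem]
    intro b hb
    have h3 : ∑ b ∈ P.LPos \ P.D.Inv w, b = 0 := by
      have h4 := Finset.sum_sdiff (f := fun b : Fin r → ℤ => b) (inv_sub hw)
      have h5 : ∑ b ∈ P.D.Inv w, b = ∑ b ∈ P.LPos, b := h
      rw [h5] at h4
      exact add_eq_right.1 h4
    have h2 := (Finset.sum_eq_zero_iff_of_nonneg (s := P.LPos \ P.D.Inv w) (f := fun b => b)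
      (fun b hb => dj_pos_nonneg (mem_LPos.1 (Finset.mem_sdiff.1 hb).1).1)).1 h3 b hb
    exact ne_zero (mem_of_pos (mem_LPos.1 (Finset.mem_sdiff.1 hb).1).1) h2
  exact Finset.Subset.antisymm (inv_sub hw) (Finset.sdiff_eq_empty_iff_subset.1 h1)

private theorem dj_neg {w : P.D.W} (hw : w ∈ P.WJ) (h : P.D.Inv w = P.LPos) {b : Fin r → ℤ}
    (hb : b ∈ P.LPos) : P.D.rt w b ∉ P.D.Pos := by
  intro h1
  have h2 := (mem_LPos.1 hb).2
  have h3 : P.D.rt w b ∈ P.LPos := mem_LPos.2 ⟨h1, wj_levi hw h2⟩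
  rw [← h] at h3
  have h4 := (Finset.mem_filter.1 h3).2
  rw [← rt_mul, inv_mul_cancel, rt_one] at h4
  exact h4 (mem_LPos.1 hb).1

private theorem dj_uniq {w w' : P.D.W} (hw : w ∈ P.WJ) (hw' : w' ∈ P.WJ) (h : P.D.Inv w = P.LPos)
    (h' : P.D.Inv w' = P.LPos) : w' = w := by
  have h1 : P.D.Inv (w⁻¹ * w') = ∅ := by
    rw [Finset.eq_empty_iff_forall_notMem]
    intro b hb
    have h2 : b ∈ P.LPos := inv_sub (P.WJ.mul_mem (P.WJ.inv_mem hw) hw') hb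
    have h3 := (Finset.mem_filter.1 hb).2
    rw [mul_inv_rev, inv_inv, rt_mul] at h3
    have h4 := dj_neg hw h h2
    have h5 : P.Levi (P.D.rt w b) := wj_levi hw (mem_LPos.1 h2).2
    have h6 : -P.D.rt w b ∈ P.LPos :=
      mem_LPos.2 ⟨(not_pos_iff h5.1).1 h4, ⟨RS.neg_mem h5.1, fun i hi => by rw [Pi.neg_apply, h5.2 i hi, neg_zero]⟩⟩
    rw [← h'] at h6
    have h7 := (Finset.mem_filter.1 h6).2
    rw [rt_neg] at h7
    apply h7
    refine (not_pos_iff (P.D.rt_mem.2 h5.1)).1 h3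
  have h2 : P.D.len (w⁻¹ * w')⁻¹ = 0 := by
    have h3 : (P.D.Inv (w⁻¹ * w')).card = P.D.len (w⁻¹ * w')⁻¹ := rfl
    rw [← h3, h1, Finset.card_empty]
  have h3 := inv_eq_one.1 (eq_one_of_len h2)
  exact (inv_mul_eq_one.1 h3).symm

private theorem dj_one (P : Par r) : P.D.kap 1 = 0 := by
  have h1 : P.D.Inv 1 = ∅ := by
    rw [Finset.eq_empty_iff_forall_notMem]
    intro b hb
    have h2 := (Finset.mem_filter.1 hb)
    rw [inv_one, rt_one] at h2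
    exact h2.2 h2.1
  show ∑ b ∈ P.D.Inv 1, b = 0
  rw [h1, Finset.sum_empty]

private theorem dj_wJ (P : Par r) : ∃ w ∈ P.WJ, P.D.Inv w = P.LPos := by
  obtain ⟨v, hv, h⟩ := fl_spec (P := P) P.D.w0
  refine ⟨v, hv, ?_⟩
  refine Finset.Subset.antisymm (inv_sub hv) fun b hb => ?_
  obtain ⟨h1, h2⟩ := mem_LPos.1 hb
  refine Finset.mem_filter.2 ⟨h1, ?_⟩
  have h0 : (P.D.w0)⁻¹ = P.D.w0 := inv_eq_of_mul_eq_one_right w0_mul_self
  have h3 : v⁻¹ = P.D.w0 * (P.fl P.D.w0).1 := by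
    have h4 : v = (P.fl P.D.w0).1⁻¹ * P.D.w0 := by
      rw [eq_inv_mul_iff_mul_eq]
      exact h.symm
    rw [h4, mul_inv_rev, inv_inv, h0]
  rw [h3, rt_mul]
  exact w0_pos ((x_levi (P.fl P.D.w0) h2).2 h1)

theorem denomJ (P : Par r) :
    ∏ b ∈ P.LPos, (1 - chr b : RH r) = ∑ w ∈ P.WF, (-1) ^ P.D.len w * chr (P.D.kap w) := by
  obtain ⟨F, -, hF⟩ := exists_push (dj_wt P)
  have hF1 := hF 1
  have e1 : ∑ w ∈ P.WF, (-1 : RH r) ^ P.D.len w * chr (P.D.rt 1 (P.D.kap w)) * P.D.LB 0 (1 * w) =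
      ∑ w ∈ P.WF, (-1) ^ P.D.len w * chr (P.D.kap w) := by
    refine Finset.sum_congr rfl fun w _ => ?_
    rw [rt_one, dj_LB, mul_one]
  have e2 : ∏ a ∈ P.LPos, (1 - chr (P.D.rt 1 a) : RH r) = ∏ b ∈ P.LPos, (1 - chr b) := by
    refine Finset.prod_congr rfl fun a _ => ?_
    rw [rt_one]
  rw [e1, e2] at hF1
  obtain ⟨wJ, hwJ, hI⟩ := dj_wJ P
  have hX : Nc 0 (0 + ∑ b ∈ P.LPos, b) (∑ w ∈ P.WF, (-1) ^ P.D.len w * chr (P.D.kap w) : RH r) := by
    have hm : ∀ i : {w // w ∈ P.WF}, i.1 ∈ P.WJ := fun i => mem_WF.1 i.2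
    have h1 : Nc 0 (∑ b ∈ P.LPos, b) (∑ i : {w // w ∈ P.WF},
        (((-1) ^ P.D.len i.1 : ℤ) : RH r) * chr (P.D.kap i.1)) := by
      refine nc_sum (⟨1, mem_WF.2 P.WJ.one_mem⟩ : {w // w ∈ P.WF}) ⟨wJ, mem_WF.2 hwJ⟩
        (fun i => dj_bd (hm i)) (dj_one P) (fun i hi => Subtype.ext (kap_eq_zero hi)) ?_ ?_ ?_ ?_
      · show ((-1 : ℤ)) ^ P.D.len 1 = 1
        rw [len_one, pow_zero]
      · show ∑ b ∈ P.D.Inv wJ, b = _
        rw [hI]
      · intro i hi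
        exact Subtype.ext (dj_uniq hwJ (hm i) hI (dj_inv (hm i) hi))
      · rcases neg_one_pow_eq_or ℤ (P.D.len wJ) with h | h
        · exact Or.inl h
        · exact Or.inr h
    rw [zero_add]
    have h2 : (∑ w ∈ P.WF, (-1) ^ P.D.len w * chr (P.D.kap w) : RH r) =
        ∑ i : {w // w ∈ P.WF}, (((-1) ^ P.D.len i.1 : ℤ) : RH r) * chr (P.D.kap i.1) := by
      rw [← Finset.sum_coe_sort P.WF fun w => ((-1 : RH r) ^ P.D.len w * chr (P.D.kap w))]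
      refine Finset.sum_congr rfl fun i _ => ?_
      push_cast
      rfl
    rw [h2]
    exact h1
  have hP : Nc 0 (∑ b ∈ P.LPos, b) (∏ b ∈ P.LPos, (1 - chr b : RH r)) := by
    have h := Nc.prod P.LPos (A := fun _ => (0 : Fin r → ℤ)) (B := fun b => b)
      (X := fun b => (1 - chr b : RH r)) fun b hb => nc_sub (dj_pos_nonneg (mem_LPos.1 hb).1)
        (ne_zero (mem_of_pos (mem_LPos.1 hb).1))
    rw [Finset.sum_const_zero] at h
    exact h
  have h1 := Nc.cancel hP hX hF1.symm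
  rw [h1, chr_zero, one_mul] at hF1
  exact hF1.symm

end Pool.Agent.FLG.Par
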