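import Pool.Agent.FLG.P.FMain
import Pool.Agent.FLG.PK.Det
import Pool.Agent.FLG.PK.Cls

/-!
# FLG-PK-Kd: the `K`-theory of `G/P` as the input of the analytic part
-/

set_option autoImplicit false

open scoped BigOperators Topology
open Filter
open Pool.Agent.DST.TE Pool.Agent.DSTJ.Spec

namespace Pool.Agent.FLG.Par

open RS

variable {r : ℕ} {P : Par r}

/-- the basis of `K_T(G/P)`, the `Γ`-classes and the Euler form -/
noncomputable def kd {t : Fin r → ℂ} (ht : P.Inv t) : P.KD t where
  B := fun i p => P.Bk i p.1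
  G := P.GM t
  χ := P.chiM
  G_diff := fun hy u i => GM_diff t hy u i
  G_res := fun hy => GM_res ht hy
  B_supp := fun i p h => (isB_Bk i).isB.supp p.1 h
  B_diag := fun p => (isB_Bk p).isB.diag
  χ_unit := chiM_unit P
  χ_loc := fun i j y hy => isChi_chiM i j y hy

end Pool.Agent.FLG.Par
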