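import Pool.Agent.FLG.PK.Defs
import Pool.Agent.FLG.P.Cos

/-!
# FLG-PK-Lev: the Levi Weyl group and the Weyl group

Signs, denominators, sums over the Levi Weyl group.
-/

set_option autoImplicit false

open scoped BigOperators Topology
open Filter
open Pool.Agent.DST.TE Pool.Agent.DSTJ.Spec

namespace Pool.Agent.FLG.Par

open RS

variable {r : ℕ} {P : Par r}

theorem kap_mul {D : RS r} (v w : D.W) : D.kap (v * w) = D.kap v + D.rt v (D.kap w) := by
  have h1 : ∀ p : D.W, D.rt p D.tr = D.tr - (2 : ℤ) • D.kap p := fun p => rt_tr p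
  have h2 := h1 (v * w)
  have h3 : D.rt v ((2 : ℤ) • D.kap w) = (2 : ℤ) • D.rt v (D.kap w) := D.rt_smul _ _ _
  rw [D.rt_mul, h1 w, sub_eq_add_neg, D.rt_add, D.rt_neg, h3, h1 v] at h2
  funext i
  have h4 := congrFun h2 i
  simp only [Pi.add_apply, Pi.sub_apply, Pi.neg_apply, Pi.smul_apply, smul_eq_mul] at h4 ⊢
  omega

theorem parity_mul {D : RS r} (v w : D.W) :
    (-1 : ℤ) ^ D.len (v * w) = (-1) ^ D.len v * (-1) ^ D.len w := by
  induction hn : D.len w using Nat.strong_induction_on generalizing v w with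
  | _ n ih =>
    by_cases h1 : w = 1
    · have h2 : D.len (1 : D.W) = 0 := by
        unfold RS.len
        rw [Finset.card_eq_zero, Finset.filter_eq_empty_iff]
        intro a ha hn
        rw [D.rt_one] at hn
        exact hn ha
      rw [h1, h2] at hn
      rw [h1, mul_one, ← hn, pow_zero, mul_one]
    · obtain ⟨i, hi⟩ := exists_descent h1
      have hss : D.s i * D.s i = 1 := refl_mul_self (D.al_mem i)
      have h3 : v * w = v * D.s i * (D.s i * w) := by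
        rw [mul_assoc, ← mul_assoc (D.s i), hss, one_mul]
      have h4 := ih (D.len (D.s i * w)) (by omega) (v * D.s i) (D.s i * w) rfl
      have h5 : (-1 : ℤ) ^ D.len (v * D.s i) = -(-1) ^ D.len v := len_parity v (D.al_mem i)
      rw [h3, h4, h5, ← hn, ← hi, pow_succ]
      ring

theorem mem_WF {w : P.D.W} : w ∈ P.WF ↔ w ∈ P.WJ := by
  classical
  unfold WF
  rw [Finset.mem_filter]
  exact ⟨fun h => h.2, fun h => ⟨Finset.mem_univ _, h⟩⟩

theorem mem_LPos {a : Fin r → ℤ} : a ∈ P.LPos ↔ a ∈ P.D.Pos ∧ P.Levi a := by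
  unfold LPos
  rw [Finset.mem_filter]
  exact ⟨fun h => ⟨h.1, mem_of_pos h.1, h.2⟩, fun h => ⟨h.1, h.2.2⟩⟩

theorem prod_split {M : Type*} [CommMonoid M] (f : (Fin r → ℤ) → M) :
    ∏ a ∈ P.D.Pos, f a = (∏ a ∈ P.Pos, f a) * ∏ a ∈ P.LPos, f a := by
  rw [← Finset.prod_filter_mul_prod_filter_not P.D.Pos (fun a => ∃ i, i ∉ P.J ∧ a i ≠ 0) f]
  have h1 : P.LPos = P.D.Pos.filter fun a => ¬ ∃ i, i ∉ P.J ∧ a i ≠ 0 := by
    unfold LPos
    refine Finset.filter_congr fun a _ => ?_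
    push Not
    rfl
  rw [h1]
  rfl

theorem inv_sub {w : P.D.W} (hw : w ∈ P.WJ) : P.D.Inv w ⊆ P.LPos := by
  intro b hb
  unfold RS.Inv at hb
  obtain ⟨h1, h2⟩ := Finset.mem_filter.1 hb
  refine mem_LPos.2 ⟨h1, ?_⟩
  by_contra h3
  exact h2 (mem_Pos.1 (wj_pos (P.WJ.inv_mem hw) (mem_Pos.2 ⟨h1, h3⟩))).1

theorem den_eqJ {w : P.D.W} (hw : w ∈ P.WJ) : (-1 : RH r) ^ P.D.len w * chr (P.D.kap w) *
    ∏ a ∈ P.LPos, (1 - chr (P.D.rt w a)) = ∏ b ∈ P.LPos, (1 - chr b) := by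
  have h1 := den_eq w
  rw [prod_split (P := P) (fun a => (1 - chr (P.D.rt w a) : RH r)),
    prod_split (P := P) (fun b => (1 - chr b : RH r)),
    prod_Pos hw (fun a => (1 - chr a : RH r))] at h1
  have h2 : (∏ a ∈ P.Pos, (1 - chr a : RH r)) ≠ 0 := by
    rw [Finset.prod_ne_zero_iff]
    intro a ha
    refine one_sub_ne ?_
    rintro rfl
    exact RS.neg_not_pos (mem_Pos.1 ha).1 (by rw [neg_zero]; exact (mem_Pos.1 ha).1)
  refine mul_left_cancel₀ h2 ?_
  rw [← h1]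
  ring

theorem sum_WF_mul {M : Type*} [AddCommMonoid M] {v : P.D.W} (hv : v ∈ P.WJ) (f : P.D.W → M) :
    ∑ w ∈ P.WF, f (v * w) = ∑ w ∈ P.WF, f w := by
  refine Finset.sum_nbij' (fun w => v * w) (fun w => v⁻¹ * w) (fun w hw => ?_) (fun w hw => ?_)
    (fun w _ => inv_mul_cancel_left v w) (fun w _ => mul_inv_cancel_left v w) (fun w _ => rfl)
  · exact mem_WF.2 (P.WJ.mul_mem hv (mem_WF.1 hw))
  · exact mem_WF.2 (P.WJ.mul_mem (P.WJ.inv_mem hv) (mem_WF.1 hw))

/-- sums over the Weyl group -/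
theorem sum_W {M : Type*} [AddCommMonoid M] (f : P.D.W → M) :
    ∑ p, f p = ∑ p : P.X, ∑ w ∈ P.WF, f (p.1 * w) := by
  rw [← Finset.sum_fiberwise Finset.univ P.fl f]
  refine Finset.sum_congr rfl fun x _ => ?_
  have hx : ∀ p : P.D.W, P.fl p = x ↔ x.1⁻¹ * p ∈ P.WJ := by
    intro p
    rw [← fl_eq_iff, fl_val]
    exact eq_comm
  refine Finset.sum_nbij' (fun p => x.1⁻¹ * p) (fun w => x.1 * w) (fun p hp => ?_) (fun w hw => ?_)
    (fun p _ => mul_inv_cancel_left _ p) (fun w _ => inv_mul_cancel_left _ w)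
    (fun p _ => by rw [mul_inv_cancel_left])
  · exact mem_WF.2 ((hx p).1 (Finset.mem_filter.1 hp).2)
  · refine Finset.mem_filter.2 ⟨Finset.mem_univ _, (hx _).2 ?_⟩
    rw [inv_mul_cancel_left]
    exact mem_WF.1 hw

end Pool.Agent.FLG.Par
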