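import Pool.Agent.FLG.PK.Lev

/-!
# FLG-PK-LinD: combinations of homogeneous bundles and Demazure operators
-/

set_option autoImplicit false

open scoped BigOperators Topology
open Filter
open Pool.Agent.DST.TE Pool.Agent.DSTJ.Spec

namespace Pool.Agent.FLG.Par

open RS

variable {r : ℕ} {P : Par r}

private theorem pd_LB {D : RS r} {h : Fin r → ℂ} (hh : D.IsWt h) (i : Fin r) (p : D.W) :
    D.wK (D.s i) (D.LB h (D.s i * p)) = chr (D.dl h (D.s i)) * D.LB h p := by
  unfold LB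
  rw [wK_chr, ← chr_add, dl_mul hh, rt_neg, rt_add, ← rt_mul, s_mul_self, rt_one]
  have h1 := dl_mul hh (D.s i) (D.s i)
  rw [s_mul_self, dl_one hh] at h1
  have h2 : D.rt (D.s i) (D.dl h (D.s i)) = -D.dl h (D.s i) := by
    have h3 := h1.symm
    rw [add_comm] at h3
    exact eq_neg_of_add_eq_zero_left h3
  congr 1
  rw [h2]
  abel

private theorem pd_VB {μ : Fin r → ℂ} (h : P.D.IsWt μ) (F : RH r) (i : Fin r) (p : P.D.W) :
    P.D.wK (P.D.s i) (P.VB μ F (P.D.s i * p)) = chr (P.D.dl μ (P.D.s i)) * P.VB μ F p := by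
  unfold VB
  rw [map_mul, pd_LB h, ← wK_mul, ← mul_assoc (P.D.s i), s_mul_self, one_mul, mul_assoc]

private theorem pd_ne (i : Fin r) : (1 - chr (al i) : RH r) ≠ 0 := by
  refine one_sub_ne fun h0 => ?_
  have h1 := congrFun h0 i
  rw [al, Pi.single_eq_same] at h1
  exact one_ne_zero h1

theorem vb_ri {μ : Fin r → ℂ} {F : RH r} (h : P.IsMult μ F) : P.RI (P.VB μ F) := by
  intro p w hw
  have h1 := congrArg (P.D.wK p) (congrArg sK (h.2 w hw))
  rw [map_mul, sK_chr, ← wK_sK, map_mul, wK_chr, rt_neg] at h1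
  unfold VB LB
  rw [dl_mul h.1, neg_add, chr_add, wK_mul, mul_assoc, h1]

theorem linJ_ri {f : P.D.W → RH r} (hf : P.LinJ f) : P.RI f := by
  obtain ⟨n, μ, F, a, hm, hp⟩ := hf
  intro p w hw
  rw [hp, hp]
  refine Finset.sum_congr rfl fun k _ => ?_
  rw [vb_ri (hm k) p w hw]

theorem linJ_mul (c : RH r) {f : P.D.W → RH r} (hf : P.LinJ f) : P.LinJ fun p => c * f p := by
  obtain ⟨n, μ, F, a, hm, hp⟩ := hf
  refine ⟨n, μ, F, fun k => c * a k, hm, fun p => ?_⟩
  show c * f p = ∑ k, c * a k * P.VB (μ k) (F k) p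
  rw [hp, Finset.mul_sum]
  refine Finset.sum_congr rfl fun k _ => ?_
  rw [mul_assoc]

theorem linJ_dem {f g : P.D.W → RH r} (hf : P.LinJ f) {i : Fin r} (hg : P.D.IsDem i f g) :
    P.LinJ g := by
  obtain ⟨n, h, F, a, hw, hp⟩ := hf
  have hdv : ∀ k, ∃ m, a k - chr (al i) * P.D.wK (P.D.s i) (a k) * chr (P.D.dl (h k) (P.D.s i)) =
      (1 - chr (al i)) * m := by
    intro k
    have h1 : (1 - chr (al i) : RH r) ∣ a k - P.D.wK (P.D.s i) (a k) :=
      wK_sub_dvd (P.D.al_mem i) (a k)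
    obtain ⟨m, -, hm⟩ := dl_refl (hw k).1 1 (P.D.al_mem i)
    rw [mul_one, dl_one (hw k).1, zero_sub] at hm
    have h2 : (1 - chr (al i) : RH r) ∣ 1 - chr (al i) * chr (P.D.dl (h k) (P.D.s i)) := by
      rw [← chr_add]
      have h3 : al i + P.D.dl (h k) (P.D.s i) = (1 - m) • al i := by
        have h4 : P.D.dl (h k) (P.D.s i) = -(m • al i) := hm
        rw [h4, sub_smul, one_smul, sub_eq_add_neg]
      rw [h3]
      exact dvd_zsmul _ _
    have h5 : a k - chr (al i) * P.D.wK (P.D.s i) (a k) * chr (P.D.dl (h k) (P.D.s i)) =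
        (a k - P.D.wK (P.D.s i) (a k)) +
          (1 - chr (al i) * chr (P.D.dl (h k) (P.D.s i))) * P.D.wK (P.D.s i) (a k) := by
      ring
    rw [h5]
    exact dvd_add h1 (h2.mul_right _)
  choose m hm using hdv
  refine ⟨n, h, F, m, hw, fun p => ?_⟩
  refine mul_left_cancel₀ (pd_ne i) ?_
  rw [hg p, hp p, hp (P.D.s i * p), map_sum, Finset.mul_sum, ← Finset.sum_sub_distrib,
    Finset.mul_sum]
  refine Finset.sum_congr rfl fun k _ => ?_
  rw [map_mul, pd_VB (hw k).1, ← mul_assoc (1 - chr (al i)), ← hm k]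
  ring

theorem ri_dem {f g : P.D.W → RH r} (hf : P.RI f) {i : Fin r} (hg : P.D.IsDem i f g) :
    P.RI g := by
  intro p w hw
  refine mul_left_cancel₀ (pd_ne i) ?_
  rw [hg (p * w), hg p, ← mul_assoc, hf p w hw, hf (P.D.s i * p) w hw]

end Pool.Agent.FLG.Par
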