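import Pool.Agent.FLG.PK.Push
import Pool.Agent.FLG.PK.LinD
import Pool.Agent.FLG.K.Bas
import Pool.Agent.FLG.P.Bnd

/-!
# FLG-PK-Pt: the class of the fixed point `w₀ W_J`

PLAN. Let `m = (fl w0).1`, `wJ = m⁻¹ * w0 ∈ WJ` (`fl_spec`). Facts: for `a ∈ P.Pos`: `rt m a ∉ D.Pos` (`rt m a = rt w0 (rt wJ⁻¹ a)`, `wj_pos`, `w0_pos`); for `a ∈ LPos`: `rt m a ∈ D.Pos` (`x_levi`). Hence `D.Inv m` is the set of the `b > 0` with `m⁻¹ b` not Levi, and (bijection `a ↦ rt m a`) `D.Pos \ D.Inv m = rt m LPos`: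
`∏ b ∈ D.Pos, (1 - chr b) = (∏ b ∈ D.Inv m, (1 - chr b)) * ∏ a ∈ LPos, (1 - chr (rt m a))`.
`gkm_Bpt`: for `b ∈ Φ` and `p`: if exactly one of `p`, `refl b * p` is in `w0 WJ`, say `p = m v` (`fl_mul`), then `rt p⁻¹ b` is not Levi (`refl b * p = p * refl (rt p⁻¹ b)`, `refl_mem`), so `rt m⁻¹ b = rt v (rt p⁻¹ b)` is not Levi and `b` or `-b` is in `Inv m`: `1 - chr b` divides the product (`Finset.dvd_prod_of_mem`, `dvd_neg_iff`).
`lin_Bpt`: `steinberg`: `D.Bpt p = ∑ a_k LB h_k p`. Sum over `w ∈ WF` of `(-1)^{len w} chr (rt p (kap w)) * (at p * w)`: by `exists_push` the right side is `(∑ a_k VB h_k F_k p) * ∏ a ∈ LPos, (1 - chr (rt p a))`. Left side: only `w = p⁻¹ w0` contributes, present iff `p ∈ w0 WJ`; put `p = m v`, `w = v⁻¹ wJ`: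
`kap w = kap v⁻¹ + v⁻¹ kap wJ`, `rt p (kap w) = rt m (kap wJ - kap v)` (`kap_mul` for `v * v⁻¹`), `(-1)^{len w} = (-1)^{len v} (-1)^{len wJ}`, and `∏ a ∈ LPos, (1 - chr (rt m (rt v a))) = (-1)^{len v} chr (-rt m (kap v)) ∏ a ∈ LPos, (1 - chr (rt m a))` (`den_eqJ`, apply `wK m`). So the left side is
`(-1)^{len wJ} chr (rt m (kap wJ)) * (∏ b ∈ Inv m, (1 - chr b)) * ∏ a ∈ LPos, (1 - chr (rt p a))` for `p ∈ w0 WJ`, `0` otherwise; cancel the last product: `u * P.Bpt p = ∑ a_k VB h_k F_k p` for a unit `u`. Divide by `u` (`linJ_mul`).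
`isB_pt`: support: `fl p = fl w0` implies `m ≤ p`: `Bru` of a minimal representative: `P.D.Bru (P.fl p).1 p` (see `x`-lemmas in P/; or by the length: `p = m v`, right multiplication by simple reflections of `J` increases: induction with `bru` steps `len_mul_s_of_pos`). `D.Lin`: every `GKM` class is a combination of the `B_w`
(`gkm_basis`), which are `Lin` (`(isB_Bk w).lin`, `lin_add`). `ri_Bpt`: `fl_mul`.
-/

set_option autoImplicit false

open scoped BigOperators Topology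
open Filter
open Pool.Agent.DST.TE Pool.Agent.DSTJ.Spec

namespace Pool.Agent.FLG.Par

open RS

variable {r : ℕ} {P : Par r}

private theorem pt_lin_mul {D : RS r} (c : RH r) {f : D.W → RH r} (hf : D.Lin f) :
    D.Lin fun p => c * f p := by
  obtain ⟨n, h, a, hh, hf⟩ := hf
  refine ⟨n, h, fun k => c * a k, hh, fun p => ?_⟩
  show c * f p = ∑ k, c * a k * D.LB (h k) p
  rw [hf p, Finset.mul_sum]
  exact Finset.sum_congr rfl fun k _ => by ring

private theorem pt_lin_sum {D : RS r} {ι : Type*} (s : Finset ι) {f : ι → D.W → RH r}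
    (hf : ∀ i ∈ s, D.Lin (f i)) : D.Lin fun p => ∑ i ∈ s, f i p := by
  classical
  induction s using Finset.induction_on with
  | empty =>
    exact ⟨0, fun k => k.elim0, fun k => k.elim0, fun k => k.elim0, fun p => by simp⟩
  | insert a s ha ih =>
    have h1 := lin_add (hf a (Finset.mem_insert_self a s))
      (ih fun i hi => hf i (Finset.mem_insert_of_mem hi))
    have h2 : (fun p => ∑ i ∈ insert a s, f i p) = fun p => f a p + ∑ i ∈ s, f i p := by
      funext p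
      rw [Finset.sum_insert ha]
    rw [h2]
    exact h1

/-- every class is a combination of line bundles on `G/B` -/
theorem gkm_lin {D : RS r} {f : D.W → RH r} (hf : D.GKM f) : D.Lin f := by
  obtain ⟨c, hc⟩ := gkm_basis hf
  have h1 : f = fun p => ∑ w, c w * D.Bk w p := by
    funext p
    exact hc p
  rw [h1]
  exact pt_lin_sum _ fun w _ => pt_lin_mul (c w) (isB_Bk w).lin

private theorem pt_s_mem {j : Fin r} (hj : j ∈ P.J) : P.D.s j ∈ P.WJ :=
  Subgroup.subset_closure ⟨j, hj, rfl⟩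

/-- minimal representatives are below -/
theorem bru_fl (p : P.D.W) : P.D.Bru (P.fl p).1 p := by
  have key : ∀ n : ℕ, ∀ p : P.D.W, P.D.len p = n → P.D.Bru (P.fl p).1 p := by
    intro n
    induction n using Nat.strong_induction_on with
    | _ n ih =>
      intro p hp
      by_cases h : ∀ j ∈ P.J, P.D.rt p (al j) ∈ P.D.Pos
      · have h1 : P.fl p = ⟨p, h⟩ := P.fl_val ⟨p, h⟩
        rw [h1]
        exact Bru.refl _
      · push Not at h
        obtain ⟨j, hj, hn⟩ := h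
        have h1 := len_mul_s_of_neg j p hn
        have h2 := ih (P.D.len (p * P.D.s j)) (by omega) _ rfl
        rw [P.fl_mul p (pt_s_mem hj)] at h2
        refine h2.trans ?_
        have h3 : P.D.rt (p * P.D.s j) (al j) ∈ P.D.Pos := by
          rw [P.D.rt_mul]
          have h4 : P.D.rt (P.D.s j) (al j) = -al j := P.D.rt_refl_self (P.D.al_mem j)
          rw [h4, P.D.rt_neg]
          exact (not_pos_iff (P.D.rt_mem.2 (P.D.al_mem j))).1 hn
        have h5 := bru_mul_refl (P.D.al_pos j) h3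
        have h6 : p * P.D.s j * P.D.refl (al j) = p := by
          have h7 : P.D.refl (al j) * P.D.refl (al j) = 1 := P.D.refl_mul_self (P.D.al_mem j)
          show p * P.D.refl (al j) * P.D.refl (al j) = p
          rw [mul_assoc, h7, mul_one]
        rwa [h6] at h5
  exact key _ p rfl

theorem ri_Bpt (P : Par r) : P.RI P.Bpt := by
  intro p w hw
  unfold Bpt
  rw [P.fl_mul p hw]

/-- the images of the roots outside the Levi subgroup are negative -/
private theorem pt_neg (P : Par r) {a : Fin r → ℤ} (ha : a ∈ P.Pos) :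
    P.D.rt (P.fl P.D.w0).1 a ∉ P.D.Pos := by
  obtain ⟨v, hv, hw⟩ := P.fl_spec P.D.w0
  have h1 : (P.fl P.D.w0).1 = P.D.w0 * v⁻¹ := by
    rw [eq_mul_inv_iff_mul_eq]
    exact hw.symm
  rw [h1, P.D.rt_mul]
  exact w0_pos (P.mem_Pos.1 (P.wj_pos (P.WJ.inv_mem hv) ha)).1

private theorem pt_dvd (P : Par r) {p : P.D.W} {b : Fin r → ℤ} (hb : b ∈ P.D.Φ)
    (hp : P.fl p = P.fl P.D.w0) (hq : P.fl (P.D.refl b * p) ≠ P.fl P.D.w0) :
    (1 - chr b : RH r) ∣ ∏ b ∈ P.D.Inv (P.fl P.D.w0).1, (1 - chr b) := by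
  obtain ⟨v, hv, hpv⟩ := P.fl_spec p
  rw [hp] at hpv
  set m := (P.fl P.D.w0).1 with hm
  have hbl : ¬ P.Levi (P.D.rt p⁻¹ b) := by
    intro hl
    apply hq
    have h1 := P.refl_mem hl
    have h2 : P.D.refl b * p = p * P.D.refl (P.D.rt p⁻¹ b) := by
      rw [P.D.refl_rt p⁻¹ hb, inv_inv, mul_assoc, mul_inv_cancel_left]
    rw [h2, P.fl_mul p h1, hp]
  have h3 : P.D.rt p⁻¹ b = P.D.rt v⁻¹ (P.D.rt m⁻¹ b) := by
    rw [← P.D.rt_mul, hpv, mul_inv_rev]
  have hal : ¬ P.Levi (P.D.rt m⁻¹ b) := by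
    intro hl
    apply hbl
    rw [h3]
    exact P.wj_levi (P.WJ.inv_mem hv) hl
  have hma : P.D.rt m (P.D.rt m⁻¹ b) = b := P.D.rt_rt_inv m b
  rcases P.cases (P.D.rt_mem.2 hb : P.D.rt m⁻¹ b ∈ P.D.Φ) with h | h | h
  · exact absurd h hal
  · have h4 := pt_neg P h
    rw [← hm, hma] at h4
    have h5 := (not_pos_iff hb).1 h4
    rw [← dvd_neg_iff]
    refine Finset.dvd_prod_of_mem (fun b => (1 - chr b : RH r)) (a := -b) ?_
    unfold RS.Inv
    rw [Finset.mem_filter]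
    refine ⟨h5, ?_⟩
    rw [P.D.rt_neg]
    exact neg_not_pos (P.mem_Pos.1 h).1
  · have h4 := pt_neg P h
    rw [← hm, P.D.rt_neg, hma] at h4
    have h5 : b ∈ P.D.Pos := by
      rcases pos_or_neg hb with h6 | h6
      · exact h6
      · exact absurd h6 h4
    refine Finset.dvd_prod_of_mem (fun b => (1 - chr b : RH r)) (a := b) ?_
    unfold RS.Inv
    rw [Finset.mem_filter]
    refine ⟨h5, ?_⟩
    have h7 := neg_not_pos (P.mem_Pos.1 h).1
    rwa [neg_neg] at h7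

theorem gkm_Bpt (P : Par r) : P.D.GKM P.Bpt := by
  intro p b hb
  by_cases h1 : P.fl p = P.fl P.D.w0
  · by_cases h2 : P.fl (P.D.refl b * p) = P.fl P.D.w0
    · unfold Bpt
      rw [if_pos h1, if_pos h2, sub_self]
      exact dvd_zero _
    · unfold Bpt
      rw [if_pos h1, if_neg h2, sub_zero]
      exact pt_dvd P hb h1 h2
  · by_cases h2 : P.fl (P.D.refl b * p) = P.fl P.D.w0
    · unfold Bpt
      rw [if_neg h1, if_pos h2, zero_sub, dvd_neg]
      refine pt_dvd P hb h2 ?_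
      rw [← mul_assoc, P.D.refl_mul_self hb, one_mul]
      exact h1
    · unfold Bpt
      rw [if_neg h1, if_neg h2, sub_self]
      exact dvd_zero _

/-- the positive roots are the inversions and the images of the Levi roots -/
private theorem pt_split (P : Par r) (f : (Fin r → ℤ) → RH r) :
    ∏ b ∈ P.D.Pos, f b = (∏ b ∈ P.D.Inv (P.fl P.D.w0).1, f b) *
      ∏ a ∈ P.LPos, f (P.D.rt (P.fl P.D.w0).1 a) := by
  set m := (P.fl P.D.w0).1 with hm
  unfold RS.Inv
  rw [← Finset.prod_filter_mul_prod_filter_not P.D.Pos (fun b => P.D.rt m⁻¹ b ∉ P.D.Pos) f]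
  congr 1
  symm
  refine Finset.prod_nbij' (fun a => P.D.rt m a) (fun b => P.D.rt m⁻¹ b) ?_ ?_ ?_ ?_ ?_
  · intro a ha
    obtain ⟨h1, h2⟩ := mem_LPos.1 ha
    rw [Finset.mem_filter, not_not, P.D.rt_inv_rt]
    exact ⟨(P.x_levi (P.fl P.D.w0) h2).2 h1, h1⟩
  · intro b hb
    rw [Finset.mem_filter, not_not] at hb
    rw [mem_LPos]
    refine ⟨hb.2, ?_⟩
    by_contra hl
    have h1 := pt_neg P (P.mem_Pos.2 ⟨hb.2, hl⟩)
    rw [← hm, P.D.rt_rt_inv] at h1
    exact h1 hb.1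
  · intro a _
    exact P.D.rt_inv_rt m a
  · intro b _
    exact P.D.rt_rt_inv m b
  · intro a _
    rfl

private theorem pt_neg_pow (n : ℕ) : (-1 : RH r) ^ n = (((-1 : ℤ) ^ n : ℤ) : RH r) := by
  push_cast
  rfl

private theorem pt_wK_den (m v p : P.D.W) (hp : p = m * v) (hv : v ∈ P.WJ) :
    (-1 : RH r) ^ P.D.len v * chr (P.D.rt m (P.D.kap v)) * ∏ a ∈ P.LPos, (1 - chr (P.D.rt p a)) =
      ∏ b ∈ P.LPos, (1 - chr (P.D.rt m b)) := by
  have h1 := congrArg (P.D.wK m) (den_eqJ hv)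
  rw [map_mul, map_mul, map_pow, map_neg, map_one, map_prod, map_prod, wK_chr] at h1
  have h2 : ∀ a, P.D.wK m (1 - chr (P.D.rt v a)) = 1 - chr (P.D.rt p a) := by
    intro a
    rw [map_sub, map_one, wK_chr, hp, P.D.rt_mul]
  have h3 : ∀ a, P.D.wK m (1 - chr a) = 1 - chr (P.D.rt m a) := by
    intro a
    rw [map_sub, map_one, wK_chr]
  rw [Finset.prod_congr rfl fun a _ => h2 a, Finset.prod_congr rfl fun a _ => h3 a] at h1
  exact h1

theorem lin_Bpt (P : Par r) : P.LinJ P.Bpt := by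
  classical
  obtain ⟨n, h, a, hh, hB⟩ := steinberg P.D
  have hF : ∀ k, ∃ F : RH r, P.IsMult (h k) F ∧
      ∀ p, ∑ w ∈ P.WF, (-1) ^ P.D.len w * chr (P.D.rt p (P.D.kap w)) * P.D.LB (h k) (p * w) =
        P.VB (h k) F p * ∏ a ∈ P.LPos, (1 - chr (P.D.rt p a)) := fun k => exists_push (hh k)
  choose F hFm hFs using hF
  obtain ⟨wJ, hwJ, hw0⟩ := P.fl_spec P.D.w0
  obtain ⟨m, hm⟩ : ∃ m, m = (P.fl P.D.w0).1 := ⟨_, rfl⟩
  rw [← hm] at hw0
  obtain ⟨Q, hQ⟩ : ∃ Q : RH r, Q = ∏ b ∈ P.D.Inv m, (1 - chr b) := ⟨_, rfl⟩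
  have hBp : ∀ p, P.Bpt p = if P.fl p = P.fl P.D.w0 then Q else 0 := by
    intro p
    unfold Bpt
    rw [← hm, ← hQ]
  -- the main identity
  have key : ∀ p, (-1 : RH r) ^ P.D.len wJ * chr (P.D.rt m (P.D.kap wJ)) * P.Bpt p =
      ∑ k, a k * P.VB (h k) (F k) p := by
    intro p
    have hLD : (∏ a ∈ P.LPos, (1 - chr (P.D.rt p a)) : RH r) ≠ 0 := by
      refine Finset.prod_ne_zero_iff.2 fun a ha => one_sub_ne ?_
      exact ne_zero (P.D.rt_mem.2 (mem_of_pos (mem_LPos.1 ha).1))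
    apply mul_right_cancel₀ hLD
    have hS : (∑ k, a k * P.VB (h k) (F k) p) * ∏ a ∈ P.LPos, (1 - chr (P.D.rt p a)) =
        ∑ w ∈ P.WF, (-1) ^ P.D.len w * chr (P.D.rt p (P.D.kap w)) * P.D.Bpt (p * w) := by
      rw [Finset.sum_mul]
      have h1 : ∀ k, a k * P.VB (h k) (F k) p * ∏ a ∈ P.LPos, (1 - chr (P.D.rt p a)) =
          ∑ w ∈ P.WF, (-1) ^ P.D.len w * chr (P.D.rt p (P.D.kap w)) *
            (a k * P.D.LB (h k) (p * w)) := by
        intro k
        rw [mul_assoc, ← hFs k p, Finset.mul_sum]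
        exact Finset.sum_congr rfl fun w _ => by ring
      rw [Finset.sum_congr rfl fun k _ => h1 k, Finset.sum_comm]
      refine Finset.sum_congr rfl fun w _ => ?_
      rw [← Finset.mul_sum, ← hB]
    rw [hS, hBp p]
    split_ifs with hp
    · obtain ⟨v, hv, hpv⟩ := P.fl_spec p
      rw [hp, ← hm] at hpv
      have hw : p * (v⁻¹ * wJ) = P.D.w0 := by
        rw [hpv, hw0]
        group
      have hmem : v⁻¹ * wJ ∈ P.WJ := P.WJ.mul_mem (P.WJ.inv_mem hv) hwJ
      rw [Finset.sum_eq_single (v⁻¹ * wJ)]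
      · have e1 : P.D.Bpt (p * (v⁻¹ * wJ)) = Q * ∏ a ∈ P.LPos, (1 - chr (P.D.rt m a)) := by
          unfold RS.Bpt
          rw [if_pos hw, pt_split P (fun b => (1 - chr b : RH r)), ← hm, ← hQ]
        have e2 := pt_wK_den m v p hpv hv
        have e3 : (-1 : RH r) ^ P.D.len (v⁻¹ * wJ) =
            (-1 : RH r) ^ P.D.len v * (-1) ^ P.D.len wJ := by
          rw [pt_neg_pow, pt_neg_pow, pt_neg_pow, parity_mul, RS.len_inv]
          push_cast
          rfl
        have e4 : (chr (P.D.rt m (P.D.kap wJ)) : RH r) =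
            chr (P.D.rt m (P.D.kap v)) * chr (P.D.rt p (P.D.kap (v⁻¹ * wJ))) := by
          have e5 : P.D.kap wJ = P.D.kap v + P.D.rt v (P.D.kap (v⁻¹ * wJ)) := by
            rw [← kap_mul, mul_inv_cancel_left]
          rw [← chr_add, e5, P.D.rt_add, ← P.D.rt_mul, ← hpv]
        have e6 : (-1 : RH r) ^ P.D.len v * (-1) ^ P.D.len v = 1 := by
          rw [← mul_pow, neg_one_mul, neg_neg, one_pow]
        rw [e1, ← e2, e3, e4]
        linear_combination (-((-1 : RH r) ^ P.D.len wJ * chr (P.D.rt p (P.D.kap (v⁻¹ * wJ))) * Q *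
          chr (P.D.rt m (P.D.kap v)) * ∏ a ∈ P.LPos, (1 - chr (P.D.rt p a)))) * e6
      · intro w _ hne
        have e1 : P.D.Bpt (p * w) = 0 := by
          unfold RS.Bpt
          rw [if_neg]
          intro he
          apply hne
          rw [← hw] at he
          exact mul_left_cancel he
        rw [e1, mul_zero]
      · intro hn
        exact absurd (mem_WF.2 hmem) hn
    · rw [mul_zero, zero_mul, eq_comm]
      refine Finset.sum_eq_zero fun w hw => ?_
      have e1 : P.D.Bpt (p * w) = 0 := by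
        unfold RS.Bpt
        rw [if_neg]
        intro he
        apply hp
        rw [← he, P.fl_mul p (mem_WF.1 hw)]
      rw [e1, mul_zero]
  refine ⟨n, h, F, fun k => (-1 : RH r) ^ P.D.len wJ * chr (-P.D.rt m (P.D.kap wJ)) * a k, hFm,
    fun p => ?_⟩
  have h1 : ∀ k, (-1 : RH r) ^ P.D.len wJ * chr (-P.D.rt m (P.D.kap wJ)) * a k *
      P.VB (h k) (F k) p = (-1 : RH r) ^ P.D.len wJ * chr (-P.D.rt m (P.D.kap wJ)) *
        (a k * P.VB (h k) (F k) p) := fun k => by ring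
  rw [Finset.sum_congr rfl fun k _ => h1 k, ← Finset.mul_sum, ← key p]
  have e6 : (-1 : RH r) ^ P.D.len wJ * (-1) ^ P.D.len wJ = 1 := by
    rw [← mul_pow, neg_one_mul, neg_neg, one_pow]
  have e7 := chr_mul_neg (r := r) (P.D.rt m (P.D.kap wJ))
  linear_combination (-(P.Bpt p)) * e6 - ((-1 : RH r) ^ P.D.len wJ * (-1) ^ P.D.len wJ *
    P.Bpt p) * e7

theorem isB_pt (P : Par r) : P.IsB (P.fl P.D.w0) P.Bpt := by
  refine ⟨⟨gkm_Bpt P, ?_, ?_, gkm_lin (gkm_Bpt P)⟩, ri_Bpt P, lin_Bpt P⟩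
  · intro p hp
    have h1 : P.fl p = P.fl P.D.w0 := by
      by_contra h
      apply hp
      unfold Bpt
      rw [if_neg h]
    have h2 := bru_fl (P := P) p
    rwa [h1] at h2
  · unfold Bpt
    rw [if_pos (P.fl_val _)]

end Pool.Agent.FLG.Par
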