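import Pool.Agent.FLG.PK.Lev

/-!
# FLG-PK-Push: the push-forward of a line bundle from `G/B` to `G/P`

The alternating sum over the Levi Weyl group is divisible by the denominator of the Levi subgroup; the quotient is invariant.
-/

set_option autoImplicit false

open scoped BigOperators Topology
open Filter
open Pool.Agent.DST.TE Pool.Agent.DSTJ.Spec

namespace Pool.Agent.FLG.Par

open RS

variable {r : ℕ} {P : Par r}

/-- the terms -/
private noncomputable def pu_T (D : RS r) (h : Fin r → ℂ) (w : D.W) : RH r :=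
  (-1) ^ D.len w * chr (D.kap w) * D.LB h w

private theorem pu_pair {D : RS r} {h : Fin r → ℂ} (hh : D.IsWt h) {b : Fin r → ℤ} (hb : b ∈ D.Φ) (p : D.W) :
    (1 - chr b) ∣ pu_T D h p + pu_T D h (D.refl b * p) := by
  obtain ⟨n, hn⟩ := kap_refl p hb
  have h1 : ((-1 : RH r)) ^ D.len (D.refl b * p) = -(-1) ^ D.len p := by
    have h := congrArg (Int.cast : ℤ → RH r) (len_parity_left p hb)
    push_cast at h
    exact h
  have h2 : (1 - chr b) ∣ chr (D.kap (D.refl b * p)) - (chr (D.kap p) : RH r) := dvd_chr_sub hn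
  have h3 : pu_T D h p + pu_T D h (D.refl b * p) =
      (-1) ^ D.len p * chr (D.kap p) * (D.LB h p - D.LB h (D.refl b * p)) -
      (-1) ^ D.len p * D.LB h (D.refl b * p) * (chr (D.kap (D.refl b * p)) - chr (D.kap p)) := by
    unfold pu_T
    rw [h1]
    ring
  rw [h3]
  exact dvd_sub (Dvd.dvd.mul_left (gkm_LB hh p b hb) _) (Dvd.dvd.mul_left h2 _)

private theorem pu_dvd {h : Fin r → ℂ} (hh : P.D.IsWt h) {b : Fin r → ℤ} (hb : b ∈ P.LPos) :
    (1 - chr b) ∣ ∑ p ∈ P.WF, pu_T P.D h p := by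
  obtain ⟨hbp, hbl⟩ := mem_LPos.1 hb
  have hbΦ := mem_of_pos hbp
  have hr : P.D.refl b ∈ P.WJ := refl_mem hbl
  have hflip : ∀ p : P.D.W, P.D.rt (P.D.refl b * p)⁻¹ b = -P.D.rt p⁻¹ b := by
    intro p
    rw [mul_inv_rev, refl_inv hbΦ, P.D.rt_mul, rt_refl_self hbΦ, P.D.rt_neg]
  have hinv : ∀ p : P.D.W, P.D.refl b * (P.D.refl b * p) = p := by
    intro p
    rw [← mul_assoc, refl_mul_self hbΦ, one_mul]
  have hmem : ∀ p : P.D.W, P.D.rt p⁻¹ b ∈ P.D.Φ := fun p => P.D.rt_mem.2 hbΦ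
  have hWF : ∀ p, p ∈ P.WF → P.D.refl b * p ∈ P.WF := fun p hp =>
    mem_WF.2 (P.WJ.mul_mem hr (mem_WF.1 hp))
  have h1 := Finset.sum_filter_add_sum_filter_not P.WF (fun p => P.D.rt p⁻¹ b ∈ P.D.Pos) (pu_T P.D h)
  have h2 : ∑ p ∈ P.WF.filter (fun p : P.D.W => P.D.rt p⁻¹ b ∉ P.D.Pos), pu_T P.D h p =
      ∑ p ∈ P.WF.filter (fun p : P.D.W => P.D.rt p⁻¹ b ∈ P.D.Pos), pu_T P.D h (P.D.refl b * p) := by
    refine Finset.sum_bij' (fun p _ => P.D.refl b * p) (fun p _ => P.D.refl b * p) ?_ ?_ ?_ ?_ ?_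
    · intro p hp
      rw [Finset.mem_filter] at hp ⊢
      refine ⟨hWF p hp.1, ?_⟩
      rw [hflip, ← not_pos_iff (hmem p)]
      exact hp.2
    · intro p hp
      rw [Finset.mem_filter] at hp ⊢
      refine ⟨hWF p hp.1, ?_⟩
      rw [hflip]
      exact neg_not_pos hp.2
    · intro p _
      exact hinv p
    · intro p _
      exact hinv p
    · intro p _
      rw [hinv]
  rw [← h1, h2, ← Finset.sum_add_distrib]
  exact Finset.dvd_sum fun p _ => pu_pair hh hbΦ p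

private theorem pu_LB {D : RS r} {h : Fin r → ℂ} (hh : D.IsWt h) (v w : D.W) :
    D.LB h (v * w) = D.LB h v * D.wK v (D.LB h w) := by
  unfold LB
  rw [dl_mul hh, wK_chr, rt_neg, ← chr_add]
  congr 1
  abel

private theorem pu_mul {D : RS r} {h : Fin r → ℂ} (hh : D.IsWt h) (v w : D.W) :
    pu_T D h (v * w) = (-1) ^ D.len v * chr (D.kap v) * D.LB h v * D.wK v (pu_T D h w) := by
  have h1 : ((-1 : RH r)) ^ D.len (v * w) = (-1) ^ D.len v * (-1) ^ D.len w := by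
    have h := congrArg (Int.cast : ℤ → RH r) (parity_mul v w)
    push_cast at h
    exact h
  unfold pu_T
  rw [h1, kap_mul, chr_add, pu_LB hh, map_mul, map_mul, map_pow, map_neg, map_one, wK_chr]
  ring

theorem exists_push {h : Fin r → ℂ} (hh : P.D.IsWt h) : ∃ F : RH r, P.IsMult h F ∧
    ∀ p, ∑ w ∈ P.WF, (-1) ^ P.D.len w * chr (P.D.rt p (P.D.kap w)) * P.D.LB h (p * w) =
      P.VB h F p * ∏ a ∈ P.LPos, (1 - chr (P.D.rt p a)) := by
  obtain ⟨G, hG⟩ : (∏ b ∈ P.LPos, (1 - chr b) : RH r) ∣ ∑ w ∈ P.WF, pu_T P.D h w :=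
    dvd_prod (fun a ha b hb hne n k h => indep_pos (mem_LPos.1 ha).1 (mem_LPos.1 hb).1 hne n k h)
      fun b hb => pu_dvd hh hb
  have hne : (∏ b ∈ P.LPos, (1 - chr b) : RH r) ≠ 0 :=
    Finset.prod_ne_zero_iff.2 fun _ hb => one_sub_ne (ne_zero (mem_of_pos (mem_LPos.1 hb).1))
  have hwK : ∀ v : P.D.W, P.D.wK v (∏ b ∈ P.LPos, (1 - chr b) : RH r) = ∏ b ∈ P.LPos, (1 - chr (P.D.rt v b)) := by
    intro v
    rw [map_prod]
    refine Finset.prod_congr rfl fun a _ => ?_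
    rw [map_sub, map_one, wK_chr]
  -- invariance
  have hinv : ∀ v ∈ P.WJ, P.D.LB h v * P.D.wK v G = G := by
    intro v hv
    have h1 := sum_WF_mul hv (pu_T P.D h)
    simp only [pu_mul hh] at h1
    rw [← Finset.mul_sum, ← map_sum, hG, map_mul, hwK] at h1
    have h2 := den_eqJ hv
    have h3 : (∏ b ∈ P.LPos, (1 - chr b) : RH r) * (P.D.LB h v * P.D.wK v G) = (∏ b ∈ P.LPos, (1 - chr b)) * G := by
      rw [← h1]
      nth_rewrite 1 [← h2]
      ring
    exact mul_left_cancel₀ hne h3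
  refine ⟨sK G, ⟨hh, ?_⟩, ?_⟩
  · intro w hw
    have h1 : chr (P.D.dl h w) = sK (P.D.LB h w) := by
      unfold LB
      rw [sK_chr, neg_neg]
    rw [h1, wK_sK, ← map_mul, hinv w hw]
  · intro p
    have h1 : ∀ w ∈ P.WF, (-1) ^ P.D.len w * chr (P.D.rt p (P.D.kap w)) * P.D.LB h (p * w) =
        P.D.LB h p * P.D.wK p (pu_T P.D h w) := by
      intro w _
      unfold pu_T
      rw [pu_LB hh, map_mul, map_mul, map_pow, map_neg, map_one, wK_chr]
      ring
    rw [Finset.sum_congr rfl h1, ← Finset.mul_sum, ← map_sum, hG, map_mul, hwK]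
    unfold VB
    rw [sK_sK]
    ring

end Pool.Agent.FLG.Par
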